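import Pool.Agent.H63.AB.Fam
import Pool.Agent.H12.LPK.Pq

/-!
# The rows of a family from the rows of another family

`Cvr`: each member of the family `Ψ` has a member of the family `Ψ₀` over it; the code, the context of
that member and the digits of the differences of the two heights are few bits given the labels, the
context and the time. `Rw2.cvv`: then the rows of `Ψ₀` are rows of the members of `Ψ` on all large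
parts (`RwV`).
-/

set_option autoImplicit false

namespace Pool.RWB12

open Finset Real MvPolynomial
open Pool.Agent.H49.Ent Pool.Agent.H32.Dense Pool.STK Pool.KA Pool.KSAT Pool.K2S Pool.PB Pool.GEN
open Pool.S6C Pool.RCD Pool.LA91 Pool.OWN68 Pool.AJW Pool.PN18

variable {m : ℕ}

/-- **Each member of `Ψ` has a member of `Ψ₀` over it**, few bits given the labels, the context and
the time of the first one, together with the differences of the heights to `N₁`, `N₂` digits. -/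
def Cvr (S : PCl m) (Ψ₀ Ψ : Fm2 m) (κ₁ κ₂ : Fin m) (w N₁ N₂ δ : ℝ) : Prop :=
  Bas S (fun J F A => ∀ (V C : Type) (z : PtT F → V) (z' : LnT F → V)
    (G₁ G₂ : V → MvPolynomial (Option (Fin m)) ℝ) (c : LnT F → C), Ψ J F A V C z z' G₁ G₂ c →
    ∃ (V₀ C₀ : Type) (z₀ : PtT F → V₀) (z₀' : LnT F → V₀)
      (P₁ P₂ : V₀ → MvPolynomial (Option (Fin m)) ℝ) (c₀ : LnT F → C₀),
      Ψ₀ J F A V₀ C₀ z₀ z₀' P₁ P₂ c₀ ∧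
      CH (Pool.Agent.H49.Ent.cond F.p A True)
        (fun ω => ((z₀' (slam F ⌊w * J⌋₊ ω), (c₀ (slam F ⌊w * J⌋₊ ω), F.W ω)),
          (⌊(2 : ℝ) ^ (N₁ * J) * (ojet F κ₁ 0 (P₁ (z₀' (slam F ⌊w * J⌋₊ ω))) ω -
            ojet F κ₁ 0 (G₁ (z' (slam F ⌊w * J⌋₊ ω))) ω)⌋,
          ⌊(2 : ℝ) ^ (N₂ * J) * (ojet F κ₂ 0 (P₂ (z₀' (slam F ⌊w * J⌋₊ ω))) ω -
            ojet F κ₂ 0 (G₂ (z' (slam F ⌊w * J⌋₊ ω))) ω)⌋)))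
        (fun ω => (z' (slam F ⌊w * J⌋₊ ω), (c (slam F ⌊w * J⌋₊ ω), F.W ω))) ≤ δ * J)

theorem Cvr.mono {S : PCl m} {Ψ₀ Ψ : Fm2 m} {κ₁ κ₂ : Fin m} {w N₁ N₂ δ δ' : ℝ}
    (h : Cvr S Ψ₀ Ψ κ₁ κ₂ w N₁ N₂ δ) (hδ : δ ≤ δ') : Cvr S Ψ₀ Ψ κ₁ κ₂ w N₁ N₂ δ' := by
  refine Bas.mono 0 h ?_
  intro J _ F A h V C z z' G₁ G₂ c hc
  obtain ⟨V₀, C₀, z₀, z₀', P₁, P₂, c₀, h0, h1⟩ := h V C z z' G₁ G₂ c hc
  exact ⟨V₀, C₀, z₀, z₀', P₁, P₂, c₀, h0,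
    h1.trans (mul_le_mul_of_nonneg_right hδ (Nat.cast_nonneg J))⟩

/-- The labels exchanged. -/
theorem Cvr.swap {S : PCl m} {C₁ : ℝ} (htm : TmC S C₁) {Ψ₀ Ψ : Fm2 m} {κ₁ κ₂ : Fin m}
    {w N₁ N₂ δ : ℝ} (h : Cvr S Ψ₀ Ψ κ₁ κ₂ w N₁ N₂ δ) :
    Cvr S Ψ₀.swap Ψ.swap κ₂ κ₁ w N₂ N₁ δ := by
  refine Bas.mono 0 (h.and (Pool.GRW.tmc_bas htm one_pos)) ?_
  rintro J - F A ⟨h, hA, -⟩ V C z z' G₁ G₂ c hc
  obtain ⟨V₀, C₀, z₀, z₀', P₁, P₂, c₀, h0, h1⟩ := h V C z z' G₂ G₁ c hc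
  have hn := (isLaw_cond F.isLaw hA).nonneg
  refine ⟨V₀, C₀, z₀, z₀', P₂, P₁, c₀, h0, le_trans ?_ h1⟩
  refine CH_mono_left hn fun ω ω' _ _ hh => ?_
  obtain ⟨e1, e2⟩ := Prod.ext_iff.mp (Prod.ext_iff.mp hh).1
  obtain ⟨e3, e4⟩ := Prod.ext_iff.mp e2
  exact Prod.ext e1 (Prod.ext e4 e3)

/-- The digits of a number given the digits of a near number and those of the difference. -/
theorem dg_two {a n x x' y y' : ℝ} {J : ℕ} (ha : a ≤ n)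
    (h1 : ⌊(2 : ℝ) ^ (a * J) * x⌋ = ⌊(2 : ℝ) ^ (a * J) * x'⌋)
    (h2 : ⌊(2 : ℝ) ^ (n * J) * (x - y)⌋ = ⌊(2 : ℝ) ^ (n * J) * (x' - y')⌋) :
    |(2 : ℝ) ^ (a * J) * y - (2 : ℝ) ^ (a * J) * y'| ≤ 2 := by
  have hJ0 : (0 : ℝ) ≤ J := Nat.cast_nonneg J
  have e1 := (Int.abs_sub_lt_one_of_floor_eq_floor h1).le
  have e2 := (Int.abs_sub_lt_one_of_floor_eq_floor h2).le
  have e3 : (2 : ℝ) ^ (a * J) ≤ (2 : ℝ) ^ (n * J) :=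
    Real.rpow_le_rpow_of_exponent_le one_le_two (mul_le_mul_of_nonneg_right ha hJ0)
  have e4 : (0 : ℝ) < (2 : ℝ) ^ (a * J) := by positivity
  have e5 : |(2 : ℝ) ^ (a * J) * ((x - y) - (x' - y'))| ≤ 1 := by
    rw [abs_mul, abs_of_pos e4]
    have e6 : (2 : ℝ) ^ (n * J) * (x - y) - (2 : ℝ) ^ (n * J) * (x' - y') =
        (2 : ℝ) ^ (n * J) * ((x - y) - (x' - y')) := by ring
    rw [e6, abs_mul, abs_of_pos (by positivity)] at e2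
    exact (mul_le_mul_of_nonneg_right e3 (abs_nonneg _)).trans e2
  have e7 : (2 : ℝ) ^ (a * J) * y - (2 : ℝ) ^ (a * J) * y' =
      ((2 : ℝ) ^ (a * J) * x - (2 : ℝ) ^ (a * J) * x') -
        (2 : ℝ) ^ (a * J) * ((x - y) - (x' - y')) := by ring
  rw [e7]
  refine (abs_sub _ _).trans ?_
  linarith

theorem dg_two' {a n x x' y y' : ℝ} {J : ℕ} (ha : a ≤ n)
    (h1 : ⌊(2 : ℝ) ^ (a * J) * y⌋ = ⌊(2 : ℝ) ^ (a * J) * y'⌋)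
    (h2 : ⌊(2 : ℝ) ^ (n * J) * (x - y)⌋ = ⌊(2 : ℝ) ^ (n * J) * (x' - y')⌋) :
    |(2 : ℝ) ^ (a * J) * x - (2 : ℝ) ^ (a * J) * x'| ≤ 2 := by
  have hJ0 : (0 : ℝ) ≤ J := Nat.cast_nonneg J
  have e1 := (Int.abs_sub_lt_one_of_floor_eq_floor h1).le
  have e2 := (Int.abs_sub_lt_one_of_floor_eq_floor h2).le
  have e3 : (2 : ℝ) ^ (a * J) ≤ (2 : ℝ) ^ (n * J) :=
    Real.rpow_le_rpow_of_exponent_le one_le_two (mul_le_mul_of_nonneg_right ha hJ0)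
  have e4 : (0 : ℝ) < (2 : ℝ) ^ (a * J) := by positivity
  have e5 : |(2 : ℝ) ^ (a * J) * ((x - y) - (x' - y'))| ≤ 1 := by
    rw [abs_mul, abs_of_pos e4]
    have e6 : (2 : ℝ) ^ (n * J) * (x - y) - (2 : ℝ) ^ (n * J) * (x' - y') =
        (2 : ℝ) ^ (n * J) * ((x - y) - (x' - y')) := by ring
    rw [e6, abs_mul, abs_of_pos (by positivity)] at e2
    exact (mul_le_mul_of_nonneg_right e3 (abs_nonneg _)).trans e2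
  have e7 : (2 : ℝ) ^ (a * J) * x - (2 : ℝ) ^ (a * J) * x' =
      ((2 : ℝ) ^ (a * J) * y - (2 : ℝ) ^ (a * J) * y') +
        (2 : ℝ) ^ (a * J) * ((x - y) - (x' - y')) := by ring
  rw [e7]
  refine (abs_add_le _ _).trans ?_
  linarith

/-- **The rows of the members of a family on all parts** of relative probability at least `c₀`. -/
def RwV (S : PCl m) (Ψ : Fm2 m) (κ₁ κ₂ : Fin m) (w p₁ p₂ α₁ α₂ q h e c₀ : ℝ) (N₀ : ℕ) :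
    Prop :=
  Bas S (fun J F A => ∀ (V C : Type) (z : PtT F → V) (z' : LnT F → V)
    (G₁ G₂ : V → MvPolynomial (Option (Fin m)) ℝ) (c : LnT F → C), Ψ J F A V C z z' G₁ G₂ c →
    RwE F A κ₁ κ₂ z' G₁ G₂ c ⌊w * J⌋₊ p₁ p₂ α₁ α₂ q h e c₀ N₀)

theorem RwV.rw2 {S : PCl m} {Ψ : Fm2 m} {κ₁ κ₂ : Fin m} {C₁ : ℝ} (htm : TmC S C₁)
    {w p₁ p₂ α₁ α₂ q h e c₀ : ℝ} {N₀ : ℕ} (hc : c₀ ≤ 1)
    (H : RwV S Ψ κ₁ κ₂ w p₁ p₂ α₁ α₂ q h e c₀ N₀) : Rw2 S Ψ κ₁ κ₂ w p₁ p₂ α₁ α₂ q h e N₀ := by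
  intro i j hij hjN
  refine Bas.mono 0 (H.and (Pool.GRW.tmc_bas htm one_pos)) ?_
  rintro J - F A ⟨h, hA, -⟩ V C z z' G₁ G₂ c hc'
  refine h V C z z' G₁ G₂ c hc' A (fun _ h => h) ?_ i j hij hjN
  exact mul_le_of_le_one_left hA.le hc

theorem RwV.sub {S : PCl m} {Ψ Ψ' : Fm2 m} {κ₁ κ₂ : Fin m} {w p₁ p₂ α₁ α₂ q h e c₀ : ℝ} {N₀ : ℕ}
    (hle : ∀ (J : ℕ) (F : Fam m J) (A : F.Ω → Prop) (V C : Type) (z : PtT F → V)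
      (z' : LnT F → V) (G₁ G₂ : V → MvPolynomial (Option (Fin m)) ℝ) (c : LnT F → C),
      Ψ' J F A V C z z' G₁ G₂ c → Ψ J F A V C z z' G₁ G₂ c)
    (H : RwV S Ψ κ₁ κ₂ w p₁ p₂ α₁ α₂ q h e c₀ N₀) :
    RwV S Ψ' κ₁ κ₂ w p₁ p₂ α₁ α₂ q h e c₀ N₀ :=
  Bas.mono 0 H fun J _ F A h V C z z' G₁ G₂ c hc => h V C z z' G₁ G₂ c (hle _ _ _ _ _ _ _ _ _ _ hc)

/-- The constant of the numbers known to the error `2`. -/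
noncomputable def lcc : ℝ := Real.log (2 * ((⌈(2 : ℝ)⌉₊ + 1 : ℕ) : ℝ) + 1)

/-- **One row**: the heights `G`, `G'` of the given labels, the heights `P`, `P'` of the labels over
them, `E` the record with the digits of the differences. -/
theorem row_core {J : ℕ} {F : Fam m J} {q' : F.Ω → ℝ} (hql : IsLaw q') {P G P' G' : F.Ω → ℝ}
    {V₀ V : Type} {R₀ : F.Ω → V₀} {R : F.Ω → V} {N₁ N₂ ai aj bi β : ℝ} (hai1 : ai ≤ N₁)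
    (haj1 : aj ≤ N₁) (hbi1 : bi ≤ N₂)
    (hrow : CH q' (fun ω => ⌊(2 : ℝ) ^ (ai * J) * P ω⌋)
      (fun ω => (⌊(2 : ℝ) ^ (aj * J) * P ω⌋, (⌊(2 : ℝ) ^ (bi * J) * P' ω⌋, R₀ ω))) ≤ β) :
    CH q' (fun ω => ⌊(2 : ℝ) ^ (ai * J) * G ω⌋)
      (fun ω => (⌊(2 : ℝ) ^ (aj * J) * G ω⌋, (⌊(2 : ℝ) ^ (bi * J) * G' ω⌋, R ω))) ≤ β +
      CH q' (fun ω => (R₀ ω, (⌊(2 : ℝ) ^ (N₁ * J) * (P ω - G ω)⌋,
        ⌊(2 : ℝ) ^ (N₂ * J) * (P' ω - G' ω)⌋))) R + 3 * lcc := by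
  have h0 := hql.nonneg
  obtain ⟨E, hEd⟩ : ∃ E : F.Ω → V₀ × (ℤ × ℤ), E = fun ω =>
    (R₀ ω, (⌊(2 : ℝ) ^ (N₁ * J) * (P ω - G ω)⌋, ⌊(2 : ℝ) ^ (N₂ * J) * (P' ω - G' ω)⌋)) :=
    ⟨_, rfl⟩
  obtain ⟨X, hX⟩ : ∃ X : F.Ω → ℤ, X = fun ω => ⌊(2 : ℝ) ^ (ai * J) * G ω⌋ := ⟨_, rfl⟩
  obtain ⟨X', hX'⟩ : ∃ X' : F.Ω → ℤ, X' = fun ω => ⌊(2 : ℝ) ^ (ai * J) * P ω⌋ := ⟨_, rfl⟩
  obtain ⟨Yj, hYj⟩ : ∃ Yj : F.Ω → ℤ, Yj = fun ω => ⌊(2 : ℝ) ^ (aj * J) * G ω⌋ := ⟨_, rfl⟩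
  obtain ⟨Yj', hYj'⟩ : ∃ Yj' : F.Ω → ℤ, Yj' = fun ω => ⌊(2 : ℝ) ^ (aj * J) * P ω⌋ := ⟨_, rfl⟩
  obtain ⟨Zi, hZi⟩ : ∃ Zi : F.Ω → ℤ, Zi = fun ω => ⌊(2 : ℝ) ^ (bi * J) * G' ω⌋ := ⟨_, rfl⟩
  obtain ⟨Zi', hZi'⟩ : ∃ Zi' : F.Ω → ℤ, Zi' = fun ω => ⌊(2 : ℝ) ^ (bi * J) * P' ω⌋ := ⟨_, rfl⟩
  obtain ⟨Y, hY⟩ : ∃ Y : F.Ω → ℤ × (ℤ × V), Y = fun ω => (Yj ω, (Zi ω, R ω)) := ⟨_, rfl⟩
  have hrow' : CH q' X' (fun ω => (Yj' ω, (Zi' ω, R₀ ω))) ≤ β := by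
    rw [hX', hYj', hZi']
    exact hrow
  have s1 := CH_le_add h0 X E Y
  have s2 : CH q' E Y ≤ CH q' E R := CH_mono_cond h0 fun ω ω' _ _ hh => by
    rw [hY] at hh
    exact (Prod.ext_iff.mp (Prod.ext_iff.mp hh).2).2
  have s3 := CH_le_add h0 X X' (fun ω => (E ω, Y ω))
  have s4 : CH q' X (fun ω => (X' ω, (E ω, Y ω))) ≤ lcc := by
    rw [hX, lcc]
    refine Pool.LPK12.CH_near hql _ _ fun ω ω' _ _ hh => ?_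
    obtain ⟨e1, e2⟩ := Prod.ext_iff.mp hh
    have e3 := (Prod.ext_iff.mp e2).1
    dsimp only at e1 e3
    rw [hX'] at e1
    rw [hEd] at e3
    exact dg_two hai1 e1 (Prod.ext_iff.mp (Prod.ext_iff.mp e3).2).1
  have s5 := CH_le_add h0 X' (fun ω => (Yj' ω, Zi' ω)) (fun ω => (E ω, Y ω))
  have s6 := CH_subadd h0 Yj' Zi' (fun ω => (E ω, Y ω))
  have s7 : CH q' Yj' (fun ω => (E ω, Y ω)) ≤ lcc := by
    rw [hYj', lcc]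
    refine Pool.LPK12.CH_near hql _ _ fun ω ω' _ _ hh => ?_
    obtain ⟨e1, e2⟩ := Prod.ext_iff.mp hh
    dsimp only at e1 e2
    rw [hY, hYj] at e2
    rw [hEd] at e1
    exact dg_two' haj1 (Prod.ext_iff.mp e2).1 (Prod.ext_iff.mp (Prod.ext_iff.mp e1).2).1
  have s8 : CH q' Zi' (fun ω => (E ω, Y ω)) ≤ lcc := by
    rw [hZi', lcc]
    refine Pool.LPK12.CH_near hql _ _ fun ω ω' _ _ hh => ?_
    obtain ⟨e1, e2⟩ := Prod.ext_iff.mp hh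
    dsimp only at e1 e2
    rw [hY, hZi] at e2
    rw [hEd] at e1
    exact dg_two' hbi1 (Prod.ext_iff.mp (Prod.ext_iff.mp e2).2).1
      (Prod.ext_iff.mp (Prod.ext_iff.mp e1).2).2
  have s9 : CH q' X' (fun ω => ((Yj' ω, Zi' ω), (E ω, Y ω))) ≤
      CH q' X' (fun ω => (Yj' ω, (Zi' ω, R₀ ω))) := by
    refine CH_mono_cond h0 fun ω ω' _ _ hh => ?_
    obtain ⟨e1, e2⟩ := Prod.ext_iff.mp hh
    obtain ⟨e3, e4⟩ := Prod.ext_iff.mp e1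
    obtain ⟨e5, e6⟩ := Prod.ext_iff.mp e2
    dsimp only at e3 e4 e5 e6
    rw [hEd] at e5
    exact Prod.ext e3 (Prod.ext e4 (Prod.ext_iff.mp e5).1)
  have s11 : CH q' X Y ≤ β + CH q' E R + 3 * lcc := by
    linarith only [s1, s2, s3, s4, s5, s6, s7, s8, s9, hrow']
  rw [hX, hY, hYj, hZi, hEd] at s11
  exact s11

/-- **The rows of the members of a family on all large parts from the rows of the family over it.** -/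
theorem _root_.Pool.PN18.Rw2.cvv {S : PCl m} {C₁ : ℝ} (htm : TmC S C₁) {Ψ₀ Ψ : Fm2 m}
    {κ₁ κ₂ : Fin m} {w p₁ p₂ α₁ α₂ q h e e' δ N₁ N₂ c₀ : ℝ} {N₀ : ℕ} (hN₀ : 0 < N₀) (hq : 0 ≤ q)
    (hα₁ : 0 ≤ α₁) (hα₂ : 0 ≤ α₂) (hc₀ : 0 < c₀) (hN₁ : p₁ + α₁ * q ≤ N₁)
    (hN₂ : p₂ + α₂ * q ≤ N₂)
    (hS : ∀ (J : ℕ) (F : Fam m J) (A B : F.Ω → Prop) (V C : Type) (z : PtT F → V)
      (z' : LnT F → V) (G₁ G₂ : V → MvPolynomial (Option (Fin m)) ℝ) (c : LnT F → C), Sub B A →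
      Ψ₀ J F A V C z z' G₁ G₂ c → Ψ₀ J F B V C z z' G₁ G₂ c)
    (H : Cvr S Ψ₀ Ψ κ₁ κ₂ w N₁ N₂ δ)
    (hr : Rw2 S Ψ₀ κ₁ κ₂ w p₁ p₂ α₁ α₂ q h e N₀) (he : e + δ / c₀ < e') :
    RwV S Ψ κ₁ κ₂ w p₁ p₂ α₁ α₂ q h e' c₀ N₀ := by
  have hN0 : (0 : ℝ) < N₀ := by exact_mod_cast hN₀
  obtain ⟨s, hs⟩ : ∃ s : ℝ, s = e' - (e + δ / c₀) := ⟨_, rfl⟩
  have hs0 : 0 < s := by
    rw [hs]
    linarith
  obtain ⟨J₀, hJ₀⟩ := exists_nat_ge (3 * lcc / s)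
  refine Bas.mono J₀ ((H.and (hr.ev hc₀ hS)).and (Pool.GRW.tmc_bas htm one_pos)) ?_
  rintro J hJ F A ⟨⟨H, hrow⟩, hA, -⟩ V C z z' G₁ G₂ c hΨ B hBA hPB i j hij hjN
  obtain ⟨V₀, C₀, z₀, z₀', P₁, P₂, c₀', hΨ₀, hE⟩ := H V C z z' G₁ G₂ c hΨ
  have hrow := hrow V₀ C₀ z₀ z₀' P₁ P₂ c₀' hΨ₀ B hBA hPB i j hij hjN
  have hqA := isLaw_cond F.isLaw hA
  have hB0 : 0 < Pe F.p B := lt_of_lt_of_le (by positivity) hPB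
  have hqB := isLaw_cond F.isLaw hB0
  have hJ0 : (0 : ℝ) ≤ J := Nat.cast_nonneg J
  have hJ1 : (J₀ : ℝ) ≤ J := by exact_mod_cast hJ
  have hsJ : 3 * lcc ≤ s * J := by
    have := hJ₀.trans hJ1
    rw [div_le_iff₀ hs0] at this
    linarith
  -- the exponents
  have hi0 : 0 ≤ q * i / N₀ := by positivity
  have hj0 : 0 ≤ q * j / N₀ := by positivity
  have hai1 : p₁ + α₁ * (q - q * i / N₀) ≤ N₁ := by
    have := mul_nonneg hα₁ hi0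
    linarith
  have haj1 : p₁ + α₁ * (q - q * j / N₀) ≤ N₁ := by
    have := mul_nonneg hα₁ hj0
    linarith
  have hbi1 : p₂ + α₂ * (q - q * i / N₀) ≤ N₂ := by
    have := mul_nonneg hα₂ hi0
    linarith
  have hBl : IsLaw (Pool.Agent.H49.Ent.cond F.p B True) := hqB
  have key := row_core (F := F) (J := J) hqB
    (P := fun ω => ojet F κ₁ 0 (P₁ (z₀' (slam F ⌊w * J⌋₊ ω))) ω)
    (G := fun ω => ojet F κ₁ 0 (G₁ (z' (slam F ⌊w * J⌋₊ ω))) ω)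
    (P' := fun ω => ojet F κ₂ 0 (P₂ (z₀' (slam F ⌊w * J⌋₊ ω))) ω)
    (G' := fun ω => ojet F κ₂ 0 (G₂ (z' (slam F ⌊w * J⌋₊ ω))) ω)
    (R₀ := fun ω => (z₀' (slam F ⌊w * J⌋₊ ω), (c₀' (slam F ⌊w * J⌋₊ ω), F.W ω)))
    (R := fun ω => (z' (slam F ⌊w * J⌋₊ ω), (c (slam F ⌊w * J⌋₊ ω), F.W ω)))
    hai1 haj1 hbi1 hrow
  refine key.trans ?_
  -- the differences on the part
  have hden : ∀ ω, Pool.Agent.H49.Ent.cond F.p B True ω ≤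
      1 / c₀ * Pool.Agent.H49.Ent.cond F.p A True ω := by
    intro ω
    have hl : law F.p B True = Pe F.p B := rfl
    have hl' : law F.p A True = Pe F.p A := rfl
    have hp := F.isLaw.nonneg ω
    unfold Pool.Agent.H49.Ent.cond
    by_cases hω : B ω
    · rw [if_pos (eq_true hω), if_pos (eq_true (hBA ω hω)), hl, hl', one_div,
        ← div_eq_inv_mul, div_div, div_le_div_iff₀ hB0 (by positivity)]
      refine mul_le_mul_of_nonneg_left ?_ hp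
      linarith
    · rw [if_neg (fun h => hω (of_eq_true h))]
      split_ifs
      · positivity
      · simp
  obtain ⟨E, hEd⟩ : ∃ E : F.Ω → (V₀ × (C₀ × (ℕ × F.ζ))) × (ℤ × ℤ), E = fun ω =>
      ((z₀' (slam F ⌊w * J⌋₊ ω), (c₀' (slam F ⌊w * J⌋₊ ω), F.W ω)),
        (⌊(2 : ℝ) ^ (N₁ * J) * (ojet F κ₁ 0 (P₁ (z₀' (slam F ⌊w * J⌋₊ ω))) ω -
          ojet F κ₁ 0 (G₁ (z' (slam F ⌊w * J⌋₊ ω))) ω)⌋,
        ⌊(2 : ℝ) ^ (N₂ * J) * (ojet F κ₂ 0 (P₂ (z₀' (slam F ⌊w * J⌋₊ ω))) ω -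
          ojet F κ₂ 0 (G₂ (z' (slam F ⌊w * J⌋₊ ω))) ω)⌋)) := ⟨_, rfl⟩
  obtain ⟨R, hR⟩ : ∃ R : F.Ω → V × (C × (ℕ × F.ζ)), R = fun ω =>
      (z' (slam F ⌊w * J⌋₊ ω), (c (slam F ⌊w * J⌋₊ ω), F.W ω)) := ⟨_, rfl⟩
  have h1 : CH (Pool.Agent.H49.Ent.cond F.p B True) E R ≤
      1 / c₀ * CH (Pool.Agent.H49.Ent.cond F.p A True) E R :=
    Pool.KJ.CH_dens hqA hqB hden E R
  have h2 : CH (Pool.Agent.H49.Ent.cond F.p A True) E R ≤ δ * J := by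
    rw [hEd, hR]
    exact hE
  rw [← hEd, ← hR]
  have h3 : 1 / c₀ * CH (Pool.Agent.H49.Ent.cond F.p A True) E R ≤ 1 / c₀ * (δ * J) :=
    mul_le_mul_of_nonneg_left h2 (by positivity)
  have h4 : 1 / c₀ * (δ * J) = δ / c₀ * J := by
    field_simp
  have h5 : ((α₁ - h) * ((q - q * i / N₀) - (q - q * j / N₀)) * Real.log 2 + e') * J =
      ((α₁ - h) * ((q - q * i / N₀) - (q - q * j / N₀)) * Real.log 2 + e) * J + δ / c₀ * J +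
        s * J := by
    rw [hs]
    ring
  rw [h5]
  linarith only [h1, h3, h4, hsJ]

end Pool.RWB12
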