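import Pool.Agent.H63.AB.Ctx
import Pool.Agent.H18.PN.Psq
import Pool.Agent.H12.AB.Rwa

/-!
# The context and the small closed polynomials over the labels of an early window

`jetA_w`: all jets of the chain over the labels of the window `w` from the near path over the labels of
`b ≤ w`. `dlt_F1`: the values of a small closed polynomial over the chain, from the near path. `dlt_P`:
these values are a natural quantity.
-/

set_option autoImplicit false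

namespace Pool.RWB12

open Finset Real MvPolynomial
open Pool.Agent.H49.Ent Pool.Agent.H32.Dense Pool.STK Pool.KA Pool.KSAT Pool.K2S Pool.PB Pool.GEN
open Pool.S6C Pool.RCD Pool.LA91 Pool.OWN68 Pool.AJW Pool.AJX Pool.CHT Pool.PN18 Pool.AB63
open Pool.GRD (LbP)
open Pool.LP30 (paQ)
open Pool.RJ28 (dgj dgj_lt dgj_st dgj_le)

variable {m : ℕ}

/-- **The windows of the near path** over the labels of `b`, used at the window `w`. -/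
structure NpW (S : PCl m) (c : ℕ → Fin m) (r : ℕ) (sn : ℕ → ℝ → ℝ) (G : Set ℝ) (b w A D φ : ℝ)
    (v₀ : ℕ → ℝ) : Prop where
  ch : ChG S c r sn G
  bG : b ∈ G
  wG : w ∈ G
  bw : b ≤ w
  wD : w - b ≤ D
  A0 : 0 ≤ A
  D0 : 0 < D
  φD : φ ≤ D / 2
  v : ∀ i < r, v₀ i ∈ G ∧ 0 ≤ v₀ i ∧ b - v₀ i = dgj A D r i + 3 * D ∧
      |sn i b - sn i (v₀ i) - (b - v₀ i)| ≤ φ
  b1 : 3 * dgj A D r 0 + 6 * D ≤ 1 - b
  s1 : ∀ i < r, |sn i w - sn i b - (w - b)| ≤ φ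

/-- The near path over the labels of `b`. -/
noncomputable abbrev npQ (m : ℕ) (c : ℕ → Fin m) (r : ℕ) (sn : ℕ → ℝ → ℝ) (b A D : ℝ) :
    Qt m (ℕ → ℕ → ℤ) :=
  paQ m c r b (fun l => sn l b) (fun l => sn l b + dgj A D r l + 2 * D)
    (fun l => sn l b + dgj A D r l + 2 * D - b)

section

variable {S : PCl m} {C₀ : ℝ} {c : ℕ → Fin m} {r : ℕ} {sn : ℕ → ℝ → ℝ} {G : Set ℝ}
  {b w A D φ : ℝ} {v₀ : ℕ → ℝ}

theorem NpW.w1 (H : NpW S c r sn G b w A D φ v₀) (hr : 1 ≤ r) : w < 1 := by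
  have h1 := dgj_lt H.A0 H.D0 (r := r) (l := 0) (by omega)
  have h2 := H.b1
  have h3 := H.wD
  have h4 := H.A0
  have h5 := H.D0
  linarith

theorem NpW.le0 (H : NpW S c r sn G b w A D φ v₀) {l : ℕ} (hl : l < r) :
    dgj A D r l ≤ dgj A D r 0 := by
  rcases Nat.eq_zero_or_pos l with rfl | h1
  · exact le_rfl
  · have h2 := dgj_st H.A0 H.D0 h1 hl
    have h3 := dgj_lt H.A0 H.D0 hl
    have h4 := H.A0
    have h5 := H.D0
    linarith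

/-- All jets over the labels of `b`. -/
theorem NpW.jb (htm : TmC S C₀) (H : NpW S c r sn G b w A D φ v₀) (hw1 : w ≤ 1) :
    JetA S (fun J F => ptr F J) (vg w) (fun _ F => F.T) (npQ m c r sn b A D) c 0 r b
      (fun l => sn l b) (fun l => sn l b + dgj A D r l + 2 * D) (D / 16) :=
  paA htm H.ch H.bG H.bw hw1 H.A0 H.D0 H.φD H.v H.b1

/-- **All jets of the chain over the labels of** `w` from the near path over the labels of `b`. -/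
theorem jetA_w (htm : TmC S C₀) (H : NpW S c r sn G b w A D φ v₀) {n₀ : ℕ → ℝ}
    (hn₀ : ∀ l < r, n₀ l ≤ sn l b + dgj A D r l + 2 * D) :
    JetA S (fun J F => ptr F J) (vg w) (fun _ F => F.T) (npQ m c r sn b A D) c 0 r w
      (fun l => sn l w) n₀ (D / 16) := by
  intro η hη l _ hl j
  have hw1 : w < 1 := H.w1 (by omega)
  obtain ⟨u₁, rd, hrd, hcb⟩ := H.ch.ch b H.bG
  obtain ⟨u₂, rw, hrw, hcw⟩ := H.ch.ch w H.wG
  have hA := H.A0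
  have hD := H.D0
  have hφ := H.φD
  have hb1 := H.b1
  have hwD := H.wD
  have hbw := H.bw
  have hJ := H.jb htm hw1.le
  have hd0 := fun {l : ℕ} (hl : l < r) => H.le0 hl
  have hdl := fun {l : ℕ} (hl : l < r) => dgj_lt hA hD hl
  have key := jet_tr2 (Q := npQ m c r sn b A D) (f := fun (J : ℕ) (F : Fam m J) => ptr F J)
    (y := fun (_ : ℕ) (F : Fam m _) => F.T) (r₀ := 0) (r := l) (w := w) (k := c l) (j := j)
    (v := b) (lam := 1 - b) (w₁ := b) (w₂ := w) (p₁ := sn l b) (p₂ := sn l w)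
    (N₁ := sn l b + dgj A D r l + 2 * D - (j : ℕ) * b) (N := n₀ l - (j : ℕ) * w) (σ := D / 2)
    (lv := dgj A D r) (p := fun i => sn i b) (s := fun i => sn i w)
    (n := fun i => sn i b + dgj A D r i + 2 * D) (e := D / 16) (η := η / 3) (η' := η / 3)
    (h := η / 3) htm (hcw.take (Nat.zero_le _) hl.le) hbw hbw le_rfl (by linarith) (by linarith)
    (by positivity)
    (fun i _ hi => by linarith [hdl (hi.trans hl)])
    (fun i _ hi => by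
      have := (abs_le.1 (H.s1 i (hi.trans hl))).2
      linarith)
    (fun i _ hi => by
      have h1 := abs_le.1 (H.s1 i (hi.trans hl))
      have h2 := hd0 (hi.trans hl)
      have h3 := hdl (l := 0) (by omega)
      have h4 : sn i b - φ ≤ min (sn i b) (sn i w) := le_min (by linarith [(abs_nonneg _).trans (H.s1 i (hi.trans hl))]) (by linarith [h1.1])
      linarith [h1.2])
    (fun i _ hi l' _ hl' => by
      have h1 := abs_le.1 (H.s1 i (hi.trans hl))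
      have h2 := dgj_st hA hD hl' (hi.trans hl)
      have h3 := hdl (hi.trans hl)
      have h4 : sn i b - φ ≤ min (sn i b) (sn i w) := le_min (by linarith [(abs_nonneg _).trans (H.s1 i (hi.trans hl))]) (by linarith [h1.1])
      linarith [h1.2])
    (by
      have h1 := hn₀ l hl
      have h2 := mul_le_mul_of_nonneg_left hbw (Nat.cast_nonneg (α := ℝ) j)
      linarith)
    (by
      have h1 := abs_le.1 (H.s1 l hl)
      have h2 := hn₀ l hl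
      have h3 := hd0 hl
      have h5 := hdl (l := 0) (by omega)
      have h4 : sn l b - φ ≤ min (sn l b) (sn l w) := le_min (by linarith [(abs_nonneg _).trans (H.s1 l hl)]) (by linarith [h1.1])
      linarith)
    (fun l' _ hl' => by
      have h1 := abs_le.1 (H.s1 l hl)
      have h2 := hn₀ l hl
      have h3 := dgj_st hA hD hl' hl
      have h5 := hdl hl
      have h4 : sn l b - φ ≤ min (sn l b) (sn l w) := le_min (by linarith [(abs_nonneg _).trans (H.s1 l hl)]) (by linarith [h1.1])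
      linarith)
    ptr_id (kn_T c _ _) (by linarith) (by positivity) (by positivity)
    (exs_qjets fun i' x y j' _ => exs_jet (hrd i' (by omega)) (hcb.att i' x (by omega)))
    (exs_jet (hrd l hl) (hcb.att l (Nat.zero_le _) hl))
    (F1.qjets' htm (by positivity) (fun η' hη' i' x y j' _ => hJ η' hη' i' x (by omega) j'))
    (hJ (η / 3) (by positivity) l (Nat.zero_le _) hl j)
  exact key.mono le_rfl (by linarith)

/-- **The values of a small closed polynomial over the chain**, from the near path. -/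
theorem dlt_F1 (htm : TmC S C₀) (H : NpW S c r sn G b w A D φ v₀) (hr : 1 ≤ r) {P N : ℝ}
    (h1 : N + D / 2 ≤ P + (1 - w)) (h2 : ∀ l < r, N + D / 2 ≤ P + dgj A D r l) {e η : ℝ}
    (he0 : 0 < e) (he : e ≤ D / 16) (hη : 0 < η) :
    F1 S (fun J F => ptr F J) (vg w) (fun _ F => F.T) (npQ m c r sn b A D)
      (qJet m ((range r).image c) (c 0) 0 w P N) e η := by
  have hw1 : w < 1 := H.w1 hr
  obtain ⟨u₁, rd, hrd, hcb⟩ := H.ch.ch b H.bG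
  obtain ⟨u₂, rw, hrw, hcw⟩ := H.ch.ch w H.wG
  have hA := H.A0
  have hD := H.D0
  have hφ := H.φD
  have hb1 := H.b1
  have hwD := H.wD
  have hbw := H.bw
  have hJ := H.jb htm hw1.le
  have hd0 := fun {l : ℕ} (hl : l < r) => H.le0 hl
  have hdl := fun {l : ℕ} (hl : l < r) => dgj_lt hA hD hl
  have key := self_F2 (Q := npQ m c r sn b A D) (f := fun (J : ℕ) (F : Fam m J) => ptr F J)
    (y := fun (_ : ℕ) (F : Fam m _) => F.T) (r₀ := 0) (r := r) (w := w) (k := c 0) (j := 0)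
    (v := b) (lam := 1 - b) (P := P) (N := N) (σ := D / 2)
    (lv := dgj A D r) (p := fun i => sn i b) (s := fun i => sn i w)
    (n := fun i => sn i b + dgj A D r i + 2 * D) (e := e) (η := η / 2)
    (h := η / 2) htm hcw (Finset.mem_image_of_mem _ (Finset.mem_range.2 (by omega))) hbw
    (by linarith) (by linarith) (by positivity)
    (fun i _ hi => by linarith [hdl hi])
    (fun i _ hi => by
      have := (abs_le.1 (H.s1 i hi)).2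
      linarith)
    (fun i _ hi => by
      have h1 := abs_le.1 (H.s1 i hi)
      have h2 := hd0 hi
      have h3 := hdl (l := 0) (by omega)
      have h4 : sn i b - φ ≤ min (sn i b) (sn i w) := le_min (by linarith [(abs_nonneg _).trans (H.s1 i hi)]) (by linarith [h1.1])
      linarith [h1.2])
    (fun i _ hi l' _ hl' => by
      have h1 := abs_le.1 (H.s1 i hi)
      have h2 := dgj_st hA hD hl' hi
      have h3 := hdl hi
      have h4 : sn i b - φ ≤ min (sn i b) (sn i w) := le_min (by linarith [(abs_nonneg _).trans (H.s1 i hi)]) (by linarith [h1.1])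
      linarith [h1.2])
    (by
      rw [Nat.cast_zero, zero_mul]
      linarith)
    (fun l' _ hl' => by
      rw [Nat.cast_zero, zero_mul]
      linarith [h2 l' hl'])
    ptr_id (kn_T c _ _) (by linarith) (by positivity) he0
    (exs_qjets fun i' x y j' _ => exs_jet (hrd i' (by omega)) (hcb.att i' x (by omega)))
    (F1.qjets' htm (by positivity) (fun η' hη' i' x y j' _ =>
      (hJ η' hη' i' x (by omega) j').mono he le_rfl))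
  exact key.mono le_rfl (by linarith)

end

/-- **The values of a small closed polynomial are a natural quantity.** -/
theorem dlt_P (m K : ℕ) (N : ℝ) : ∃ M J₁ : ℕ, ∀ J ≥ J₁, ∀ (F : Fam m J) (I : Finset (Fin m))
    (k : Fin m), k ∈ I → ∀ (w P e : ℝ) (A : F.Ω → Prop) (V : Type) (z : PtT F → V)
    (z' : LnT F → V) (Δ : V → MvPolynomial (Option (Fin m)) ℝ),
    (∀ v, (Δ v).totalDegree ≤ K) →
    (∀ v, ∀ b b' : Option (Fin m) → ℝ, b none = b' none →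
      (∀ i ∈ I, b (some i) = b' (some i)) → eval b (Δ v) = eval b' (Δ v)) →
    (∀ ω, A ω → z (ptr F J ω) = z' (slam F ⌊w * J⌋₊ ω)) →
    (∀ ω, A ω → |eval (bt F ω) (Δ (z' (slam F ⌊w * J⌋₊ ω)))| ≤ 1 / 2 ^ ⌊(P - e) * J⌋₊) →
    (qJet m I k 0 w P N).P M e J F A (fun ω => ⌊(2 : ℝ) ^ (N * J) *
      ojet F k 0 (X (some k) - Δ (z' (slam F ⌊w * J⌋₊ ω))) ω⌋) := by
  obtain ⟨B, hB⟩ : ∃ B : ℝ, B = |N| := ⟨_, rfl⟩
  have hB0 : 0 ≤ B := by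
    rw [hB]
    exact abs_nonneg _
  obtain ⟨M, hM⟩ : ∃ M : ℕ, M = max (K + 1) ⌈B + 2⌉₊ := ⟨_, rfl⟩
  have hM1 : B + 2 ≤ M := by
    refine (Nat.le_ceil _).trans ?_
    rw [hM]
    exact_mod_cast le_max_right _ _
  refine ⟨M, 3, fun J hJ F I k hk w P e A V z z' Δ hdeg hdep hcls hsm => ⟨?_, V, z, z',
    fun v => X (some k) - Δ v, ⟨fun v => ?_, fun v b b' h1 h2 => ?_, hcls, fun ω hω => ?_⟩,
    fun ω _ => rfl⟩⟩
  · have hJ0 : (0 : ℝ) ≤ J := Nat.cast_nonneg J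
    have hJ3 : (3 : ℝ) ≤ J := by exact_mod_cast hJ
    have hl2 : Real.log 2 ≤ 1 := by
      have := Real.log_two_lt_d9
      linarith
    obtain ⟨T, hT⟩ : ∃ T : ℝ, T = 2 ^ (B * J) := ⟨_, rfl⟩
    have hT1 : 1 ≤ T := by
      rw [hT]
      exact Real.one_le_rpow (by norm_num) (mul_nonneg hB0 hJ0)
    have hNT : (2 : ℝ) ^ (N * J) ≤ T := by
      rw [hT, hB]
      exact Real.rpow_le_rpow_of_exponent_le one_le_two
        (mul_le_mul_of_nonneg_right (le_abs_self N) hJ0)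
    have h1 := cnt_le_of_abs (p := F.p) (u := fun ω => ⌊(2 : ℝ) ^ (N * J) *
        ojet F k 0 (X (some k) - Δ (z' (slam F ⌊w * J⌋₊ ω))) ω⌋) (A := A) (B := T + 1)
        (by linarith) (by
      intro ω hω
      obtain ⟨x, hx⟩ : ∃ x, x = (2 : ℝ) ^ (N * J) *
        ojet F k 0 (X (some k) - Δ (z' (slam F ⌊w * J⌋₊ ω))) ω := ⟨_, rfl⟩
      have h2 : |x| ≤ T := by
        rw [hx, Pool.LA91.ojet_zero, map_sub, eval_X]
        have e1 : F.x ω k - (bt F ω (some k) - eval (bt F ω) (Δ (z' (slam F ⌊w * J⌋₊ ω)))) =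
            eval (bt F ω) (Δ (z' (slam F ⌊w * J⌋₊ ω))) := by
          have : bt F ω (some k) = F.x ω k := rfl
          rw [this]
          ring
        rw [e1, abs_mul, abs_of_pos (by positivity)]
        have e2 : |eval (bt F ω) (Δ (z' (slam F ⌊w * J⌋₊ ω)))| ≤ 1 := by
          refine (hsm ω hω).trans ?_
          rw [div_le_one (by positivity)]
          exact one_le_pow₀ (by norm_num)
        calc (2 : ℝ) ^ (N * J) * |eval (bt F ω) (Δ (z' (slam F ⌊w * J⌋₊ ω)))| ≤ T * 1 :=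
              mul_le_mul hNT e2 (abs_nonneg _) (by linarith)
          _ = T := mul_one T
      show |((⌊(2 : ℝ) ^ (N * J) *
        ojet F k 0 (X (some k) - Δ (z' (slam F ⌊w * J⌋₊ ω))) ω⌋ : ℤ) : ℝ)| ≤ T + 1
      rw [← hx]
      have h4 := Int.floor_le x
      have h5 := Int.lt_floor_add_one x
      have h6 := abs_le.1 h2
      rw [abs_le]
      constructor <;> linarith [h6.1, h6.2])
    refine h1.trans ?_
    have h2 : 2 * (T + 1) + 1 ≤ 5 * T := by linarith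
    refine h2.trans ?_
    have e5 : (5 : ℝ) ≤ Real.exp (2 * J) := by
      have := Real.add_one_le_exp (2 * (J : ℝ))
      linarith
    have e6 : T ≤ Real.exp (B * J) := by
      rw [hT, Real.rpow_def_of_pos two_pos]
      refine Real.exp_le_exp.2 ?_
      have : 0 ≤ B * J := mul_nonneg hB0 hJ0
      have := mul_le_mul_of_nonneg_right hl2 this
      linarith
    calc 5 * T ≤ Real.exp (2 * J) * Real.exp (B * J) :=
          mul_le_mul e5 e6 (by linarith) (Real.exp_pos _).le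
      _ = Real.exp ((B + 2) * J) := by
          rw [← Real.exp_add]
          ring_nf
      _ ≤ Real.exp (M * J) := Real.exp_le_exp.2 (mul_le_mul_of_nonneg_right hM1 hJ0)
  · refine (totalDegree_sub _ _).trans (max_le ?_ ?_)
    · rw [totalDegree_X, hM]
      exact (Nat.le_add_left 1 K).trans (le_max_left _ _)
    · rw [hM]
      exact ((hdeg v).trans (Nat.le_succ K)).trans (le_max_left _ _)
  · rw [map_sub, map_sub, eval_X, eval_X, h2 k hk, hdep v b b' h1 h2]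
  · rw [map_sub, eval_X]
    have e1 : F.x ω k - (bt F ω (some k) - eval (bt F ω) (Δ (z' (slam F ⌊w * J⌋₊ ω)))) =
        eval (bt F ω) (Δ (z' (slam F ⌊w * J⌋₊ ω))) := by
      have : bt F ω (some k) = F.x ω k := rfl
      rw [this]
      ring
    rw [e1]
    exact hsm ω hω

/-- The near path, other precisions of the labels of the other places. -/
theorem paQ_congr {c : ℕ → Fin m} {r : ℕ} {b : ℝ} {p p' nH nV : ℕ → ℝ} (h : ∀ l < r, p l = p' l)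
    {K : ℕ} {e : ℝ} {J : ℕ} {F : Fam m J} {A : F.Ω → Prop} {u : F.Ω → ℕ → ℕ → ℤ}
    (hu : (paQ m c r b p nH nV).P K e J F A u) : (paQ m c r b p' nH nV).P K e J F A u := by
  refine ⟨fun i a hi j hj => ?_, hu.2⟩
  have h1 := hu.1 i a hi j hj
  have h2 : (fun l (_ : ℕ) => p l) i j = (fun l (_ : ℕ) => p' l) i j := h i hi
  rwa [h2] at h1

theorem jetA_congr {S : PCl m} {α β γ : ∀ J : ℕ, Fam m J → Type} {U : Type}
    {f : ∀ (J : ℕ) (F : Fam m J), F.Ω → α J F} {g : ∀ (J : ℕ) (F : Fam m J), F.Ω → β J F}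
    {y : ∀ (J : ℕ) (F : Fam m J), F.Ω → γ J F} {Q : Qt m U} {c : ℕ → Fin m} {r₀ r : ℕ} {v e : ℝ}
    {p p' n : ℕ → ℝ} (h : ∀ l < r, p l = p' l) (H : JetA S f g y Q c r₀ r v p n e) :
    JetA S f g y Q c r₀ r v p' n e := by
  intro η hη l hl0 hl j
  rw [← h l hl]
  exact H η hη l hl0 hl j

/-- Two precisions. -/
theorem two_pr {a b c J : ℝ} (hc : 0 ≤ c) (hJ : 1 ≤ J * (a - c)) (hJ' : 1 ≤ J * (b - c))
    (hJ0 : 0 ≤ J) :
    (1 : ℝ) / 2 ^ ⌊a * J⌋₊ + 1 / 2 ^ ⌊b * J⌋₊ ≤ 1 / 2 ^ ⌊c * J⌋₊ := by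
  have h1 : ⌊c * J⌋₊ + 1 ≤ ⌊a * J⌋₊ := by
    rw [← Nat.floor_add_one (by positivity)]
    exact Nat.floor_le_floor (by linarith)
  have h2 : ⌊c * J⌋₊ + 1 ≤ ⌊b * J⌋₊ := by
    rw [← Nat.floor_add_one (by positivity)]
    exact Nat.floor_le_floor (by linarith)
  have h3 : (1 : ℝ) / 2 ^ ⌊a * J⌋₊ ≤ 1 / 2 ^ (⌊c * J⌋₊ + 1) :=
    one_div_le_one_div_of_le (by positivity) (pow_le_pow_right₀ (by norm_num) h1)
  have h4 : (1 : ℝ) / 2 ^ ⌊b * J⌋₊ ≤ 1 / 2 ^ (⌊c * J⌋₊ + 1) :=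
    one_div_le_one_div_of_le (by positivity) (pow_le_pow_right₀ (by norm_num) h2)
  have h5 : (1 : ℝ) / 2 ^ (⌊c * J⌋₊ + 1) = 1 / 2 ^ ⌊c * J⌋₊ / 2 := by
    rw [pow_succ]
    field_simp
  linarith

/-- The value of the difference of the heights of two labels. -/
theorem dlt_val {J : ℕ} (F : Fam m J) (κ k : Fin m) {G P Δ : MvPolynomial (Option (Fin m)) ℝ}
    {ω : F.Ω} (h : eval (bt F ω) Δ = eval (bt F ω) G - eval (bt F ω) P) :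
    ojet F k 0 (X (some k) - Δ) ω = ojet F κ 0 P ω - ojet F κ 0 G ω := by
  rw [Pool.LA91.ojet_zero, Pool.LA91.ojet_zero, Pool.LA91.ojet_zero, map_sub, eval_X, h]
  have : bt F ω (some k) = F.x ω k := rfl
  rw [this]
  ring

/-- The difference of the labels is small. -/
theorem dlt_small {J : ℕ} {F : Fam m J} {κ : Fin m} {G P : MvPolynomial (Option (Fin m)) ℝ}
    {ω : F.Ω} {a b c : ℝ} (h1 : |F.x ω κ - eval (bt F ω) G| ≤ 1 / 2 ^ ⌊a * J⌋₊)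
    (h2 : |F.x ω κ - eval (bt F ω) P| ≤ 1 / 2 ^ ⌊b * J⌋₊) (hc : 0 ≤ c)
    (hJ : 1 ≤ (J : ℝ) * (a - c)) (hJ' : 1 ≤ (J : ℝ) * (b - c)) :
    |eval (bt F ω) G - eval (bt F ω) P| ≤ 1 / 2 ^ ⌊c * J⌋₊ := by
  have e1 : eval (bt F ω) G - eval (bt F ω) P =
      (F.x ω κ - eval (bt F ω) P) - (F.x ω κ - eval (bt F ω) G) := by ring
  rw [e1]
  refine (abs_sub _ _).trans ?_
  have := two_pr hc hJ hJ' (Nat.cast_nonneg J)
  linarith

/-- The property of the family over it: nested labels of the window `w`, the code is the context. -/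
def PsB (Ψ₀ : Fm2 m) (c : ℕ → Fin m) (r K₀ : ℕ) (w lam e₀ : ℝ) (E₀ rd₀ p₀ n₀ : ℕ → ℝ) : Prop :=
  ∀ (J : ℕ) (F : Fam m J) (A : F.Ω → Prop) (V C : Type) (z : PtT F → V) (z' : LnT F → V)
    (P₁ P₂ : V → MvPolynomial (Option (Fin m)) ℝ) (cc : LnT F → C),
    Ψ₀ J F A V C z z' P₁ P₂ cc →
    ∃ g : V → ℕ → MvPolynomial (Option (Fin m)) ℝ,
      LbX F c 0 (r + 2) K₀ e₀ E₀ w rd₀ p₀ A z z' g ∧ P₁ = (fun x => g x r) ∧
      P₂ = (fun x => g x (r + 1)) ∧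
      ∃ ψ : V × ((Fin m → ℤ × ℤ) × (ℕ → ℕ → ℤ)) → C, ∀ x,
        cc x = ψ (z' x, ctxN F c 0 r ⌊w * J⌋₊ ⌊(w + lam) * J⌋₊ K₀ z' g n₀ x)

theorem psq_psb (Ψ₀ : Pool.ALT.Fml m) (c : ℕ → Fin m) (r D K : ℕ)
    (vn v t p₁ p₂ eN uN pN pa₁ pa₂ ea ua pa lam e : ℝ) (E rd p n : ℕ → ℝ) :
    PsB (PsQ Ψ₀ c r D K vn v t p₁ p₂ eN uN pN pa₁ pa₂ ea ua pa lam e E rd p n) c r K v lam e E rd
      p n := by
  rintro J F A V C z z' P₁ P₂ cc ⟨g, h1, h2, h3, -, -, h4⟩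
  exact ⟨g, h1, h2, h3, h4⟩

/-- **The labels and the context of the family over it** are few bits given those of the early
window, if the codes are maximal. -/
theorem fmb_cvr {S : PCl m} {C₀ : ℝ} {c : ℕ → Fin m} {r : ℕ} {sn : ℕ → ℝ → ℝ} {G : Set ℝ}
    {b w A D φ : ℝ} {v₀ : ℕ → ℝ} (htm : TmC S C₀) (H : NpW S c r sn G b w A D φ v₀) (hr : 1 ≤ r)
    {Ψ₀ : Fm2 m} {K₀ : ℕ} {lam e₀ : ℝ} {E₀ rd₀ p₀ n₀ : ℕ → ℝ}
    (hΨ : PsB Ψ₀ c r K₀ w lam e₀ E₀ rd₀ p₀ n₀) (hp₀ : ∀ l < r, sn l w = p₀ l)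
    (hE₀ : ∀ i < r, E₀ i ≤ 1) (hrd₀ : ∀ i < r, 0 ≤ rd₀ i) (hlam : 0 ≤ lam)
    (hn₀ : ∀ l < r, n₀ l ≤ sn l b + dgj A D r l + 2 * D) (he0 : 0 < e₀) (he₀ : e₀ ≤ D / 16)
    {K : ℕ} {e : ℝ} {E rd p : ℕ → ℝ} {X : ℕ → ℕ → ℝ} (hee : e ≤ e₀)
    (hp : ∀ l < r, p l = sn l b) {P₁ N₁ P₂ N₂ : ℝ} (hP₁ : e₀ ≤ P₁) (hP₂ : e₀ ≤ P₂)
    (h11 : P₁ < p₀ r) (h12 : P₁ < p r) (h21 : P₂ < p₀ (r + 1)) (h22 : P₂ < p (r + 1))
    (h13 : N₁ + D / 2 ≤ P₁ + (1 - w)) (h14 : ∀ l < r, N₁ + D / 2 ≤ P₁ + dgj A D r l)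
    (h23 : N₂ + D / 2 ≤ P₂ + (1 - w)) (h24 : ∀ l < r, N₂ + D / 2 ≤ P₂ + dgj A D r l)
    (hX : ∀ l < r, ∀ i j, i ≤ j → X l i ≤ X l j)
    (hH : ∀ l < r, sn l b + dgj A D r l + 2 * D ≤ X l 0)
    (hV : ∀ l < r, sn l b + dgj A D r l + 2 * D - b ≤ X l 1 - w) {k δ : ℝ} (hkδ : k < δ) :
    Cvr S Ψ₀ (FmM (FmB Ψ₀ c r K e E b w rd p X) w k) (c r) (c (r + 1)) w N₁ N₂ δ := by
  have hw1 : w < 1 := H.w1 hr
  obtain ⟨u₁, rd₁, hrd₁, hcb⟩ := H.ch.ch b H.bG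
  obtain ⟨u₂, rw, hrw, hcw⟩ := H.ch.ch w H.wG
  have hw0 : 0 ≤ w := hcw.w0
  obtain ⟨η, hη⟩ : ∃ η : ℝ, η = (δ - k) / 4 := ⟨_, rfl⟩
  have hη0 : 0 < η := by
    rw [hη]
    linarith
  -- the near path, the context, the differences
  obtain ⟨K₁, hnp⟩ := FmB.np (Ψ₀ := Ψ₀) (c := c) (r := r) (K := K) (e := e) (E := E) (b := b)
    (w := w) (rd := rd) (p := p) (X := X) (nH := fun l => sn l b + dgj A D r l + 2 * D)
    (nV := fun l => sn l b + dgj A D r l + 2 * D - b) htm hw0 hw1.le (γ := 0) le_rfl hX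
    (fun l hl => by linarith [hH l hl]) (fun l hl => by linarith [hV l hl]) hee
    (δ₁ := η) (by rw [zero_mul, mul_zero]; exact hη0)
  obtain ⟨M₁, J₁, hD1⟩ := dlt_P m (max K K₀) N₁
  obtain ⟨M₂, J₂, hD2⟩ := dlt_P m K N₂
  obtain ⟨Kx, hKx⟩ : ∃ Kx : ℕ, Kx = max K₁ (max M₁ M₂) := ⟨_, rfl⟩
  have hF1 := dlt_F1 (N := N₁) (P := P₁) htm H hr h13 h14 he0 he₀ hη0 Kx
  have hF2 := dlt_F1 (N := N₂) (P := P₂) htm H hr h23 h24 he0 he₀ hη0 Kx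
  have hFx := Pool.AJW.JetA.ctxX (K := K₀) (E := E₀) (rd := rd₀) (R := r + 2)
    (lam := lam) (δ := η) (e' := e₀) htm (jetA_congr hp₀ (jetA_w htm H hn₀))
    (fun i _ hi => hE₀ i hi) hw0 le_rfl hw1.le hlam
    (fun i _ hi => hrd₀ i hi) (kn_T c _ _) hη0 (by omega) he0 he₀ Kx
  obtain ⟨Jp, hJp⟩ := exists_nat_ge (1 / (p₀ r - P₁) + 1 / (p r - P₁) + (1 / (p₀ (r + 1) - P₂) +
    1 / (p (r + 1) - P₂)))
  refine Bas.mono (max (max J₁ J₂) Jp) (((hnp.and hFx).and (hF1.and hF2)).and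
    (Pool.GRW.tmc_bas htm one_pos)) ?_
  rintro J hJ F B ⟨⟨⟨hnp, hFx⟩, hF1, hF2⟩, hB, -⟩ V C z z' G₁ G₂ cc hcc
  obtain ⟨hBm, hMx⟩ := hcc
  obtain ⟨pa, hpa, hpaC⟩ := hnp V C z z' G₁ G₂ cc hBm
  obtain ⟨V₀, C₀', V₁, z₀, z₀', Q₁, Q₂, c₀, z₁, z₁', g₁, Hp, φ₀, φ₁, k1, k2, k3, k4, k5, rfl, rfl,
    k8, k9, k10, -, -⟩ := hBm
  obtain ⟨g₀, hg₀, rfl, rfl, ψ, hψ⟩ := hΨ J F B V₀ C₀' z₀ z₀' Q₁ Q₂ c₀ k1
  have hJ0 : (0 : ℝ) ≤ J := Nat.cast_nonneg J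
  have hJc : (Jp : ℝ) ≤ J := by exact_mod_cast (le_max_right _ _).trans hJ
  have hJJ1 : J₁ ≤ J := (le_max_left _ _).trans ((le_max_left _ _).trans hJ)
  have hJJ2 : J₂ ≤ J := (le_max_right _ _).trans ((le_max_left _ _).trans hJ)
  have t1 : 0 < 1 / (p₀ r - P₁) := one_div_pos.2 (by linarith)
  have t2 : 0 < 1 / (p r - P₁) := one_div_pos.2 (by linarith)
  have t3 : 0 < 1 / (p₀ (r + 1) - P₂) := one_div_pos.2 (by linarith)
  have t4 : 0 < 1 / (p (r + 1) - P₂) := one_div_pos.2 (by linarith)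
  have q1 : 1 ≤ (J : ℝ) * (p₀ r - P₁) := by
    rw [← div_le_iff₀ (by linarith)]
    linarith
  have q2 : 1 ≤ (J : ℝ) * (p r - P₁) := by
    rw [← div_le_iff₀ (by linarith)]
    linarith
  have q3 : 1 ≤ (J : ℝ) * (p₀ (r + 1) - P₂) := by
    rw [← div_le_iff₀ (by linarith)]
    linarith
  have q4 : 1 ≤ (J : ℝ) * (p (r + 1) - P₂) := by
    rw [← div_le_iff₀ (by linarith)]
    linarith
  have hJe : 0 ≤ (J : ℝ) * (e₀ - e) := mul_nonneg hJ0 (by linarith)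
  have hl1 := k2 r (Nat.zero_le _) (by omega)
  have hl0 := hg₀ r (Nat.zero_le _) (by omega)
  have hl1' := k2 (r + 1) (Nat.zero_le _) (by omega)
  have hl0' := hg₀ (r + 1) (Nat.zero_le _) (by omega)
  have hc0 : c 0 ∈ (range r).image c :=
    Finset.mem_image_of_mem _ (Finset.mem_range.2 (by omega))
  obtain ⟨Δ₁, hΔ₁⟩ : ∃ Δ₁ : V → MvPolynomial (Option (Fin m)) ℝ,
    Δ₁ = fun v => g₁ (φ₁ v) r - g₀ (φ₀ v) r := ⟨_, rfl⟩
  obtain ⟨Δ₂, hΔ₂⟩ : ∃ Δ₂ : V → MvPolynomial (Option (Fin m)) ℝ,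
    Δ₂ = fun v => - Hp (φ₀ v) := ⟨_, rfl⟩
  have v1 : ∀ ω, eval (bt F ω) (Δ₁ (z' (slam F ⌊w * J⌋₊ ω))) =
      eval (bt F ω) (g₁ (z₁' (slam F ⌊b * J⌋₊ ω)) r) -
        eval (bt F ω) (g₀ (z₀' (slam F ⌊w * J⌋₊ ω)) r) := by
    intro ω
    rw [hΔ₁]
    dsimp only
    rw [map_sub, k4 ω, k5 ω]
  have v2 : ∀ ω, B ω → eval (bt F ω) (Δ₂ (z' (slam F ⌊w * J⌋₊ ω))) =
      eval (bt F ω) (g₁ (z₁' (slam F ⌊b * J⌋₊ ω)) (r + 1)) -
        eval (bt F ω) (g₀ (z₀' (slam F ⌊w * J⌋₊ ω)) (r + 1)) := by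
    intro ω hω
    have e1 := k10 ω hω
    dsimp only at e1
    rw [hΔ₂]
    dsimp only
    rw [map_neg, k4 ω, e1, map_add]
    ring
  have hu1 := hD1 J hJJ1 F ((range r).image c) (c 0) hc0 w P₁ e₀ B V z z' Δ₁ (fun v => by
      rw [hΔ₁]
      exact (totalDegree_sub _ _).trans (max_le ((hl1.deg _).trans (le_max_left _ _))
        ((hl0.deg _).trans (le_max_right _ _))))
    (fun v x x' h1 h2 => by
      rw [hΔ₁]
      dsimp only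
      rw [map_sub, map_sub, hl1.dep _ x x' h1 h2, hl0.dep _ x x' h1 h2]) k3
    (fun ω hω => by
      rw [v1 ω]
      exact dlt_small (hl1.pos ω hω) (hl0.pos ω hω) (by linarith) (by linarith) (by linarith))
  have hu2 := hD2 J hJJ2 F ((range r).image c) (c 0) hc0 w P₂ e₀ B V z z' Δ₂ (fun v => by
      rw [hΔ₂]
      dsimp only
      rw [totalDegree_neg]
      exact k8 _)
    (fun v x x' h1 h2 => by
      rw [hΔ₂]
      dsimp only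
      rw [map_neg, map_neg, k9 _ x x' h1 h2]) k3
    (fun ω hω => by
      rw [v2 ω hω]
      exact dlt_small (hl1'.pos ω hω) (hl0'.pos ω hω) (by linarith) (by linarith) (by linarith))
  have hK1 : K₁ ≤ Kx := by
    rw [hKx]
    exact le_max_left _ _
  have hKM1 : M₁ ≤ Kx := by
    rw [hKx]
    exact (le_max_left _ _).trans (le_max_right _ _)
  have hKM2 : M₂ ≤ Kx := by
    rw [hKx]
    exact (le_max_right _ _).trans (le_max_right _ _)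
  have hpa' := (npQ m c r sn b A D).mono hK1 le_rfl (paQ_congr hp hpa)
  obtain ⟨V₂, z₂, hz₂, hC2⟩ := hF1 pa _ hpa' ((qJet m _ _ _ _ _ _).mono hKM1 le_rfl hu1)
  obtain ⟨V₃, z₃, hz₃, hC3⟩ := hF2 pa _ hpa' ((qJet m _ _ _ _ _ _).mono hKM2 le_rfl hu2)
  obtain ⟨V₄, z₄, hz₄, hC4⟩ := hFx V₀ z₀ z₀' g₀ hg₀ pa hpa'
  have hk := hMx.2 _ _ (hz₂.join (hz₃.join hz₄))
  have h0 := (isLaw_cond F.isLaw hB).nonneg
  have hpos : ∀ ω, 0 < Pool.Agent.H49.Ent.cond F.p B True ω → B ω := by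
    intro ω hω
    by_contra hc
    unfold Pool.Agent.H49.Ent.cond at hω
    rw [if_neg (fun h => hc (of_eq_true h))] at hω
    exact lt_irrefl _ hω
  refine ⟨V₀, C₀', z₀, z₀', fun x => g₀ x r, fun x => g₀ x (r + 1), c₀, k1, ?_⟩
  obtain ⟨q, hq⟩ : ∃ q : F.Ω → ℝ, q = Pool.Agent.H49.Ent.cond F.p B True := ⟨_, rfl⟩
  rw [← hq] at h0 hpos hpaC hC2 hC3 hC4 hk ⊢
  obtain ⟨Lc, hLc⟩ : ∃ Lc : F.Ω → V × (C × (ℕ × F.ζ)), Lc = fun ω =>
      (z' (slam F ⌊w * J⌋₊ ω), (cc (slam F ⌊w * J⌋₊ ω), F.W ω)) := ⟨_, rfl⟩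
  obtain ⟨Ev, hEv⟩ : ∃ Ev : F.Ω → (V₀ × (C₀' × (ℕ × F.ζ))) × (ℤ × ℤ), Ev = fun ω =>
      ((z₀' (slam F ⌊w * J⌋₊ ω), (c₀ (slam F ⌊w * J⌋₊ ω), F.W ω)),
        (⌊(2 : ℝ) ^ (N₁ * J) * (ojet F (c r) 0 (g₀ (z₀' (slam F ⌊w * J⌋₊ ω)) r) ω -
          ojet F (c r) 0 (g₁ (φ₁ (z' (slam F ⌊w * J⌋₊ ω))) r) ω)⌋,
        ⌊(2 : ℝ) ^ (N₂ * J) * (ojet F (c (r + 1)) 0 (g₀ (z₀' (slam F ⌊w * J⌋₊ ω)) (r + 1)) ω -
          ojet F (c (r + 1)) 0 (g₁ (φ₁ (z' (slam F ⌊w * J⌋₊ ω))) (r + 1)) ω)⌋)) := ⟨_, rfl⟩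
  obtain ⟨U₁, hU₁⟩ : ∃ U₁ : F.Ω → ℤ, U₁ = fun ω => ⌊(2 : ℝ) ^ (N₁ * J) *
      ojet F (c 0) 0 (MvPolynomial.X (some (c 0)) - Δ₁ (z' (slam F ⌊w * J⌋₊ ω))) ω⌋ := ⟨_, rfl⟩
  obtain ⟨U₂, hU₂⟩ : ∃ U₂ : F.Ω → ℤ, U₂ = fun ω => ⌊(2 : ℝ) ^ (N₂ * J) *
      ojet F (c 0) 0 (MvPolynomial.X (some (c 0)) - Δ₂ (z' (slam F ⌊w * J⌋₊ ω))) ω⌋ := ⟨_, rfl⟩
  obtain ⟨X₄, hX₄⟩ : ∃ X₄ : F.Ω → (Fin m → ℤ × ℤ) × (ℕ → ℕ → ℤ), X₄ = fun ω =>
      Pool.AJW.ctx c 0 r K₀ w lam n₀ J F V₀ z₀' g₀ ω := ⟨_, rfl⟩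
  obtain ⟨zz, hzz⟩ : ∃ zz : F.Ω → V₂ × (V₃ × V₄), zz = fun ω => (z₂ ω, (z₃ ω, z₄ ω)) := ⟨_, rfl⟩
  rw [← hLc] at hpaC
  rw [← hU₁] at hC2
  rw [← hU₂] at hC3
  have hC4' : CH q X₄ (fun ω => (pa ω, (z₄ ω, F.T ω))) ≤ η * J := by
    rw [hX₄]
    exact hC4
  have hk' : CH q zz (fun ω => z' (slam F ⌊w * J⌋₊ ω)) ≤ k * J := by
    rw [hzz]
    exact hk
  show CH q (fun ω => ((z₀' (slam F ⌊w * J⌋₊ ω), (c₀ (slam F ⌊w * J⌋₊ ω), F.W ω)),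
        (⌊(2 : ℝ) ^ (N₁ * J) * (ojet F (c r) 0 (g₀ (z₀' (slam F ⌊w * J⌋₊ ω)) r) ω -
          ojet F (c r) 0 (g₁ (φ₁ (z' (slam F ⌊w * J⌋₊ ω))) r) ω)⌋,
        ⌊(2 : ℝ) ^ (N₂ * J) * (ojet F (c (r + 1)) 0 (g₀ (z₀' (slam F ⌊w * J⌋₊ ω)) (r + 1)) ω -
          ojet F (c (r + 1)) 0 (g₁ (φ₁ (z' (slam F ⌊w * J⌋₊ ω))) (r + 1)) ω)⌋)))
    (fun ω => (z' (slam F ⌊w * J⌋₊ ω), (cc (slam F ⌊w * J⌋₊ ω), F.W ω))) ≤ δ * J
  rw [← hEv, ← hLc]
  have b1 := CH_le_add h0 Ev pa Lc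
  have b2 := CH_le_add h0 Ev zz (fun ω => (pa ω, Lc ω))
  have b3 : CH q zz (fun ω => (pa ω, Lc ω)) ≤ CH q zz (fun ω => z' (slam F ⌊w * J⌋₊ ω)) := by
    refine CH_mono_cond h0 fun ω ω' _ _ hh => ?_
    rw [hLc] at hh
    exact (Prod.ext_iff.mp (Prod.ext_iff.mp hh).2).1
  have b4 : CH q Ev (fun ω => (zz ω, (pa ω, Lc ω))) ≤
      CH q (fun ω => (X₄ ω, (U₁ ω, U₂ ω))) (fun ω => (zz ω, (pa ω, Lc ω))) := by
    refine CH_mono_left h0 fun ω ω' hω hω' hh => ?_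
    obtain ⟨e1, e2⟩ := Prod.ext_iff.mp hh
    obtain ⟨e3, e4⟩ := Prod.ext_iff.mp e1
    obtain ⟨e5, e6⟩ := Prod.ext_iff.mp e4
    have e7 := (Prod.ext_iff.mp (Prod.ext_iff.mp e2).2).2
    dsimp only at e3 e5 e6 e7
    rw [hLc] at e7
    obtain ⟨e8, e9⟩ := Prod.ext_iff.mp e7
    obtain ⟨e10, e11⟩ := Prod.ext_iff.mp e9
    dsimp only at e8 e11
    have f1 : z₀' (slam F ⌊w * J⌋₊ ω) = z₀' (slam F ⌊w * J⌋₊ ω') := by
      rw [← k4 ω, ← k4 ω', e8]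
    have f2 : c₀ (slam F ⌊w * J⌋₊ ω) = c₀ (slam F ⌊w * J⌋₊ ω') := by
      rw [hψ, hψ]
      refine congrArg ψ (Prod.ext f1 ?_)
      rw [hX₄] at e3
      exact e3
    have d1 : ∀ ω, (⌊(2 : ℝ) ^ (N₁ * J) * (ojet F (c r) 0 (g₀ (z₀' (slam F ⌊w * J⌋₊ ω)) r) ω -
          ojet F (c r) 0 (g₁ (φ₁ (z' (slam F ⌊w * J⌋₊ ω))) r) ω)⌋ : ℤ) = U₁ ω := by
      intro ω
      rw [hU₁]
      dsimp only
      rw [dlt_val F (c r) (c 0) (v1 ω), k5 ω]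
    have d2 : ∀ ω, B ω → (⌊(2 : ℝ) ^ (N₂ * J) *
        (ojet F (c (r + 1)) 0 (g₀ (z₀' (slam F ⌊w * J⌋₊ ω)) (r + 1)) ω -
          ojet F (c (r + 1)) 0 (g₁ (φ₁ (z' (slam F ⌊w * J⌋₊ ω))) (r + 1)) ω)⌋ : ℤ) = U₂ ω := by
      intro ω hω
      rw [hU₂]
      dsimp only
      rw [dlt_val F (c (r + 1)) (c 0) (v2 ω hω), k5 ω]
    rw [hEv]
    refine Prod.ext (Prod.ext f1 (Prod.ext f2 e11)) (Prod.ext ?_ ?_)
    · show (⌊_⌋ : ℤ) = ⌊_⌋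
      rw [d1 ω, d1 ω', e5]
    · show (⌊_⌋ : ℤ) = ⌊_⌋
      rw [d2 ω (hpos ω hω), d2 ω' (hpos ω' hω'), e6]
  have b5 := CH_subadd h0 X₄ (fun ω => (U₁ ω, U₂ ω)) (fun ω => (zz ω, (pa ω, Lc ω)))
  have b6 := CH_subadd h0 U₁ U₂ (fun ω => (zz ω, (pa ω, Lc ω)))
  have hWT : ∀ ω ω', Lc ω = Lc ω' → F.T ω = F.T ω' := by
    intro ω ω' hh
    rw [hLc] at hh
    have e5 : F.W ω = F.W ω' := (Prod.ext_iff.mp (Prod.ext_iff.mp hh).2).2
    exact (Prod.ext_iff.mp e5).1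
  have b7 : CH q X₄ (fun ω => (zz ω, (pa ω, Lc ω))) ≤
      CH q X₄ (fun ω => (pa ω, (z₄ ω, F.T ω))) := by
    refine CH_mono_cond h0 fun ω ω' _ _ hh => ?_
    obtain ⟨e1, e2⟩ := Prod.ext_iff.mp hh
    obtain ⟨e3, e4⟩ := Prod.ext_iff.mp e2
    rw [hzz] at e1
    exact Prod.ext e3 (Prod.ext (Prod.ext_iff.mp (Prod.ext_iff.mp e1).2).2 (hWT ω ω' e4))
  have b8 : CH q U₁ (fun ω => (zz ω, (pa ω, Lc ω))) ≤
      CH q U₁ (fun ω => (pa ω, (z₂ ω, F.T ω))) := by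
    refine CH_mono_cond h0 fun ω ω' _ _ hh => ?_
    obtain ⟨e1, e2⟩ := Prod.ext_iff.mp hh
    obtain ⟨e3, e4⟩ := Prod.ext_iff.mp e2
    rw [hzz] at e1
    exact Prod.ext e3 (Prod.ext (Prod.ext_iff.mp e1).1 (hWT ω ω' e4))
  have b9 : CH q U₂ (fun ω => (zz ω, (pa ω, Lc ω))) ≤
      CH q U₂ (fun ω => (pa ω, (z₃ ω, F.T ω))) := by
    refine CH_mono_cond h0 fun ω ω' _ _ hh => ?_
    obtain ⟨e1, e2⟩ := Prod.ext_iff.mp hh
    obtain ⟨e3, e4⟩ := Prod.ext_iff.mp e2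
    rw [hzz] at e1
    exact Prod.ext e3 (Prod.ext (Prod.ext_iff.mp (Prod.ext_iff.mp e1).2).1 (hWT ω ω' e4))
  have hfin : δ * J = 4 * (η * J) + k * J := by
    rw [hη]
    ring
  rw [hfin]
  linarith only [b1, b2, b3, b4, b5, b6, b7, b8, b9, hpaC, hC2, hC3, hC4', hk']

/-- **The rows of the second labels over the early window**, at any levels up to `N₂`, `N₁`, for the
members with maximal codes, on all large parts. -/
theorem rwv_of {S : PCl m} {C₀ : ℝ} (htm : TmC S C₀) {Ψ₀ Ψ : Fm2 m} {κ₁ κ₂ : Fin m}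
    {w N₁ N₂ δ : ℝ} (H : Cvr S Ψ₀ Ψ κ₁ κ₂ w N₁ N₂ δ)
    (hS : ∀ (J : ℕ) (F : Fam m J) (A B : F.Ω → Prop) (V C : Type) (z : PtT F → V)
      (z' : LnT F → V) (G₁ G₂ : V → MvPolynomial (Option (Fin m)) ℝ) (c : LnT F → C), Sub B A →
      Ψ₀ J F A V C z z' G₁ G₂ c → Ψ₀ J F B V C z z' G₁ G₂ c)
    {p₁ p₂ α₁ α₂ q h e e' c₀ : ℝ} {N₀ : ℕ} (hN₀ : 0 < N₀) (hq : 0 ≤ q) (hα₁ : 0 ≤ α₁)
    (hα₂ : 0 ≤ α₂) (hc₀ : 0 < c₀) (hN₁ : p₁ + α₁ * q ≤ N₁) (hN₂ : p₂ + α₂ * q ≤ N₂)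
    (hr : Rw2 S Ψ₀.swap κ₂ κ₁ w p₂ p₁ α₂ α₁ q h e N₀) (he : e + δ / c₀ < e') :
    RwV S Ψ.swap κ₂ κ₁ w p₂ p₁ α₂ α₁ q h e' c₀ N₀ :=
  Rw2.cvv htm hN₀ hq hα₂ hα₁ hc₀ hN₂ hN₁
    (fun J F A B V C z z' G₁ G₂ c hB h => hS J F A B V C z z' G₂ G₁ c hB h) (H.swap htm) hr he

end Pool.RWB12
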