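import Pool.Agent.H46.TE.Trb
import Pool.Agent.H46.TE.Hrb
import Pool.Agent.H12.AB.Rwa

/-!
# One tie and one hop, the rows for a smaller family

`tie_rbm`, `hop_rbm`: `tie_rb`, `hop_rb` with the rows (`RwV`) for the members of the family `Ψ'` only.
-/

set_option autoImplicit false

namespace Pool.RWB12

open Finset Real MvPolynomial
open Pool.Agent.H49.Ent Pool.Agent.H32.Dense Pool.STK Pool.KA Pool.KSAT Pool.K2S Pool.PB Pool.GEN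
open Pool.S6C Pool.RCD Pool.LA91 Pool.OWN68 Pool.AJW Pool.PN18 Pool.LPK12 Pool.PR46 Pool.TE46
open Pool.GRD (LbP)
open Pool.UNJ (ceI)
open Pool.BFL (Pb)

/-- **The tie of order `i`**: a jointly nonfull pair of labels, both with `α` digits per unit of
radius, the jets of order `i` natural, those of the orders above `i` dead, the one of the first label
alive, is impossible. -/
theorem tie_rbm (K B : ℕ) {i : ℕ} (hi : 1 ≤ i ∧ i ≤ K + 2) {α : ℝ} (hα : 0 < α) {h : ℝ}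
    (hh : 0 < h) (hhα : h ≤ α) {ηl : ℝ} (hηl : 0 < ηl) {ε₁ : ℝ} (hε₁ : 0 < ε₁) :
    ∃ ε' : ℝ, 0 < ε' ∧ ∃ ε : ℝ, 0 < ε ∧ ε ≤ ε₁ ∧ ∃ δ : ℝ, 0 < δ ∧
    ∃ c₀ : ℝ, 0 < c₀ ∧ ∃ N₀ : ℕ, 0 < N₀ ∧ ∀ al : ℝ, 0 < al →
    ∃ δ₁ : ℝ, 0 < δ₁ ∧
    ∀ {m : ℕ} {S : PCl m} {C₀ : ℝ} (_ : TmC S C₀) (_ : S.Ne) {κ₁ κ₂ : Fin m} {w a p₁ p₂ q : ℝ}
    (_ : 0 ≤ w) (_ : w ≤ a) (_ : a ≤ 1) (_ : 0 < q) (_ : w + α * q ≤ 1)
    {U₀ : Type} {Qu : Qt m U₀} {σ γ : ∀ J : ℕ, Fam m J → Type}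
    {f : ∀ (J : ℕ) (F : Fam m J), F.Ω → σ J F} {y : ∀ (J : ℕ) (F : Fam m J), F.Ω → γ J F}
    (_ : ∀ (J : ℕ) (F : Fam m J), ∃ φ : σ J F → PtT F, ∀ ω, ptr F J ω = φ (f J F ω))
    (_ : ∀ (J : ℕ) (F : Fam m J), ∃ φ : γ J F → ℕ, ∀ ω, F.T ω = φ (y J F ω))
    {e : ℝ} (Ψ : Fm2 m)
    (_ : ∀ (J : ℕ) (F : Fam m J) (A : F.Ω → Prop) (V C : Type) (z : PtT F → V) (z' : LnT F → V)
      (G₁ G₂ : V → MvPolynomial (Option (Fin m)) ℝ) (c : LnT F → C), Ψ J F A V C z z' G₁ G₂ c →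
      (∀ v, (G₁ v).totalDegree ≤ K + 1) ∧ (∀ v, (G₂ v).totalDegree ≤ K + 1) ∧
      ∀ ω, A ω → z (ptr F J ω) = z' (slam F ⌊w * J⌋₊ ω))
    (_ : ∀ (J : ℕ) (F : Fam m J) (A B : F.Ω → Prop) (V C : Type) (z : PtT F → V)
      (z' : LnT F → V) (G₁ G₂ : V → MvPolynomial (Option (Fin m)) ℝ) (c : LnT F → C), Sub B A →
      Ψ J F A V C z z' G₁ G₂ c → Ψ J F B V C z z' G₁ G₂ c) {Ψ' : Fm2 m}
    (_ : ∀ (J : ℕ) (F : Fam m J) (A : F.Ω → Prop) (V C : Type) (z : PtT F → V)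
      (z' : LnT F → V) (G₁ G₂ : V → MvPolynomial (Option (Fin m)) ℝ) (c : LnT F → C),
      Ψ' J F A V C z z' G₁ G₂ c → Ψ J F A V C z z' G₁ G₂ c)
    {K₀ : ℕ} (_ : Bas S (fun J F A => (∃ (V C : Type) (z : PtT F → V) (z' : LnT F → V)
      (G₁ G₂ : V → MvPolynomial (Option (Fin m)) ℝ) (c : LnT F → C),
      Ψ' J F A V C z z' G₁ G₂ c) ∧ ∃ u₀ : F.Ω → U₀, Qu.P K₀ e J F A u₀))
    {I₀ : Finset (Fin m)} {N₁ N₂ : ℕ → ℝ},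
    NwE (K + 2) {i} w p₁ α q N₁ → NwE (K + 2) {i} w p₂ α q N₂ →
    Ip3 S f a y Qu Ψ' κ₁ κ₂ w p₁ p₂ (α * q) i e (δ₁ * q) →
    Fw2 S f a y Qu Ψ (τ := fun _ _ _ C => C) (fun J F _ _ _ _ _ c ω => c (vg w J F ω)) e
      (δ₁ * q) →
    RwV S Ψ'.swap κ₂ κ₁ w (p₂ - α * q) (p₁ - α * q) α α (2 * q) h (δ * q) c₀ N₀ →
    (∀ j ≤ K + 2, Fw2 S f a y Qu Ψ (τ := fun _ _ _ _ => ℤ)
      (fun J F _ _ z' G₁ _ _ ω => ⌊(2 : ℝ) ^ (N₁ j * J) * ojet F κ₁ j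
        (G₁ (z' (slam F ⌊w * J⌋₊ ω))) ω⌋) e (δ₁ * q)) →
    (∀ j ≤ K + 2, Fw2 S f a y Qu Ψ (τ := fun _ _ _ _ => ℤ)
      (fun J F _ _ z' _ G₂ _ ω => ⌊(2 : ℝ) ^ (N₂ j * J) * ojet F κ₂ j
        (G₂ (z' (slam F ⌊w * J⌋₊ ω))) ω⌋) e (δ₁ * q)) →
    Hi2 S Ψ' κ₁ κ₂ w p₁ p₂ (α * q) i (K + 2) (δ₁ * q) →
    Al2 S f a y Qu Ψ κ₁ w (p₁ + ε' * (α * q) - i * w) i e (al * q) →
    Fr2 S Ψ' I₀ κ₁ κ₂ w (p₁ + α * q) (p₂ + α * q) B (δ₁ * q) →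
    Fl2 S Ψ I₀ κ₁ κ₂ w p₁ p₂ (α * q) ε ((α - h + ηl) * q * Real.log 2) → False := by
  classical
  have hl2 : 0 < Real.log 2 := Real.log_pos one_lt_two
  obtain ⟨ε, hε⟩ : ∃ ε : ℝ, ε = min (min (1 / 2) ε₁) (ηl * Real.log 2 / (4 * α)) := ⟨_, rfl⟩
  have hε0 : 0 < ε := by
    rw [hε]
    exact lt_min (lt_min (by norm_num) hε₁) (by positivity)
  have hε1 : ε ≤ 1 / 2 := by rw [hε]; exact (min_le_left _ _).trans (min_le_left _ _)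
  have hεε : ε ≤ ε₁ := by rw [hε]; exact (min_le_left _ _).trans (min_le_right _ _)
  have hε2 : ε * (4 * α) ≤ ηl * Real.log 2 := by
    rw [← le_div_iff₀ (by positivity), hε]
    exact min_le_right _ _
  obtain ⟨c₁, hc₁⟩ : ∃ c₁ : ℝ, c₁ = 1 / (2 * ((B : ℝ) + 1)) := ⟨_, rfl⟩
  have hB0 : (0 : ℝ) ≤ B := Nat.cast_nonneg B
  have hc₁0 : 0 < c₁ := by rw [hc₁]; positivity
  have hc₁1 : c₁ ≤ 1 := by
    rw [hc₁, div_le_one (by positivity)]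
    linarith
  obtain ⟨ε', hε', δ, hδ, c₀, hc₀, N₀, hN₀, H⟩ := tie_ev (K + 2) hi hα hh hhα hε0
    (by linarith) hc₁0 hc₁1
  refine ⟨ε', hε', ε, hε0, hεε, δ, hδ, c₀, hc₀, N₀, hN₀, ?_⟩
  intro al hal
  obtain ⟨δp, hδp, H⟩ := H al hal
  obtain ⟨δ₁, hδ₁⟩ : ∃ δ₁ : ℝ, δ₁ = min δp (ηl * Real.log 2 * c₁ / 4) := ⟨_, rfl⟩
  have hδ₁0 : 0 < δ₁ := by
    rw [hδ₁]
    exact lt_min hδp (by positivity)
  have hd1 : δ₁ ≤ δp := by rw [hδ₁]; exact min_le_left _ _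
  have hd2 : δ₁ ≤ ηl * Real.log 2 * c₁ / 4 := by rw [hδ₁]; exact min_le_right _ _
  refine ⟨δ₁, hδ₁0, ?_⟩
  intro m S C₀ htm hSne κ₁ κ₂ w a p₁ p₂ q hw0 hwa ha hq hwq U₀ Qu σ γ f y hf hy e Ψ hΨl hΨ Ψ' hle K₀
    hex I₀ N₁ N₂ hN1 hN2 hIp hc hr hj1 hj2 hHi hAl hFr hFl
  obtain ⟨J₁, H⟩ := H (w := w) (q := q) hw0 hq hwq
  have HA := Pool.GRW.bas_part (hAl K₀) (c := 1 / c₀) (by positivity)
  have HF := Pool.GRW.bas_part hFl (c := 1 / c₁) (by positivity)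
  obtain ⟨J₂, hJ₂⟩ := exists_nat_ge ((4 * Real.log 2 / c₁ + 4 * Real.log 2 + 4) /
    (ηl * Real.log 2 * q))
  obtain ⟨τ, hτ, J₃, hAll⟩ := (((hr.and HA).and (HF.and hFr)).and ((Bas.all (K + 3) fun j hj =>
    hj1 j (by omega) K₀).and (Bas.all (K + 3) fun j hj => hj2 j (by omega) K₀))).and
    ((((hc K₀).and (hIp K₀)).and (hHi.and hex)).and
      (Pool.GRW.tmc_bas htm (ψ := δ₁ * q) (by positivity)))
  obtain ⟨J, hJ, F, A, hSt⟩ := hSne τ hτ (max (max J₁ J₂) (max J₃ 1))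
  obtain ⟨⟨⟨⟨hRA, hAA⟩, hFA, hFrA⟩, hJ1, hJ2⟩, ⟨⟨hcA, hIA⟩, hHA, hexA⟩, hA, hT⟩ :=
    hAll J ((le_max_left _ _).trans ((le_max_right _ _).trans hJ)) F A hSt
  obtain ⟨⟨V, Cc, z, z', G₁, G₂, c, hcΨ'⟩, u₀, hu₀⟩ := hexA
  have hcΨ := hle J F A V Cc z z' G₁ G₂ c hcΨ'
  obtain ⟨hdg1, hdg2, hcls⟩ := hΨl J F A V Cc z z' G₁ G₂ c hcΨ
  obtain ⟨Vc, zc, hzc, hcc⟩ := hcA V Cc z z' G₁ G₂ c hcΨ u₀ hu₀
  obtain ⟨𝒜, ℰ, Ap, Ep, hac, hca, hPtl, hApf, hfree⟩ := hFrA V Cc z z' G₁ G₂ c hcΨ'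
  have hJJ1 : J₁ ≤ J := (le_max_left _ _).trans ((le_max_left _ _).trans hJ)
  have hJJ2 : (J₂ : ℝ) ≤ J := by
    exact_mod_cast (le_max_right _ _).trans ((le_max_left _ _).trans hJ)
  have hJp : 0 < J := lt_of_lt_of_le one_pos ((le_max_right _ _).trans ((le_max_right _ _).trans hJ))
  have hJ0 : (0 : ℝ) < J := by exact_mod_cast hJp
  have hqJ : 0 ≤ q * J := by positivity
  have hw1 : w ≤ 1 := hwa.trans ha
  obtain ⟨W, hW⟩ : ∃ W : ℕ, W = ⌊w * J⌋₊ := ⟨_, rfl⟩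
  have hWJ : W ≤ J := by
    rw [hW]
    refine Nat.floor_le_of_le ?_
    nlinarith
  obtain ⟨q', hq'⟩ : ∃ q' : F.Ω → ℝ, q' = Pool.Agent.H49.Ent.cond F.p A True := ⟨_, rfl⟩
  have hq'l : IsLaw q' := by
    rw [hq']
    exact isLaw_cond F.isLaw hA
  have h0 := hq'l.nonneg
  have hvg : ∀ ω, vg w J F ω = slam F W ω := fun ω => by rw [hW]; rfl
  have hz1 : ∀ j : Fin (K + 3), ∃ (V₂ : Type) (z₂ : F.Ω → V₂), Cl2 (f J F) (vg a J F) A z₂ ∧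
      CH q' (fun ω => ⌊(2 : ℝ) ^ (N₁ j * J) * ojet F κ₁ j (G₁ (z' (slam F ⌊w * J⌋₊ ω))) ω⌋)
        (fun ω => (u₀ ω, (z₂ ω, y J F ω))) ≤ δ₁ * q * J := by
    intro j
    rw [hq']
    exact hJ1 j j.2 V Cc z z' G₁ G₂ c hcΨ u₀ hu₀
  have hz2 : ∀ j : Fin (K + 3), ∃ (V₂ : Type) (z₂ : F.Ω → V₂), Cl2 (f J F) (vg a J F) A z₂ ∧
      CH q' (fun ω => ⌊(2 : ℝ) ^ (N₂ j * J) * ojet F κ₂ j (G₂ (z' (slam F ⌊w * J⌋₊ ω))) ω⌋)
        (fun ω => (u₀ ω, (z₂ ω, y J F ω))) ≤ δ₁ * q * J := by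
    intro j
    rw [hq']
    exact hJ2 j j.2 V Cc z z' G₁ G₂ c hcΨ u₀ hu₀
  choose V1 z1 hz1 hC1 using hz1
  choose V2 z2 hz2 hC2 using hz2
  -- the record of the ball
  obtain ⟨zz, hzz⟩ : ∃ zz : F.Ω → (V × (F.ζ × ℕ)) × (Vc × ((∀ j, V1 j) × (∀ j, V2 j))), zz =
    fun ω => ((z' (slam F W ω), (slam F W ω).2), (zc ω, (fun j => z1 j ω, fun j => z2 j ω))) :=
    ⟨_, rfl⟩
  obtain ⟨Y, hY⟩ : ∃ Y : F.Ω → U₀ × (((V × (F.ζ × ℕ)) × (Vc × ((∀ j, V1 j) × (∀ j, V2 j)))) ×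
      γ J F), Y = fun ω => (u₀ ω, (zz ω, y J F ω)) := ⟨_, rfl⟩
  have hYc : CH q' (fun ω => c (slam F W ω)) Y ≤ δ₁ * q * J := by
    rw [← hq'] at hcc
    simp only [hvg] at hcc
    refine le_trans (CH_mono_cond h0 fun ω ω' _ _ hh => ?_) hcc
    rw [hY, hzz] at hh
    simp only [Prod.mk.injEq] at hh ⊢
    exact ⟨hh.1, hh.2.1.2.1, hh.2.2⟩
  obtain ⟨φf, hφf⟩ := hf J F
  obtain ⟨φg, hφg⟩ := vg_mono hwa ha J F
  have hclo : Cl2 (f J F) (vg a J F) A zz := by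
    rw [hzz]
    refine Cl2.join ⟨?_, ?_⟩ (Cl2.join hzc (Cl2.join (Cl2.pi hz1) (Cl2.pi hz2)))
    · refine ⟨fun x => (z (φf x), ((φf x).2.2, (φf x).2.1 / 2 ^ (J - W))), fun ω hω => ?_⟩
      dsimp only
      have h1 := hcls ω hω
      rw [← hW] at h1
      rw [← hφf ω, h1]
      rfl
    · refine ⟨fun x => (z' (φg x), (φg x).2), fun ω _ => ?_⟩
      dsimp only
      rw [← hφg ω, hvg ω]
  have hIY := hIA V Cc z z' G₁ G₂ c hcΨ' u₀ hu₀ _ _ hclo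
  obtain ⟨φT, hφT⟩ := hy J F
  have hdd : δ₁ * q * J ≤ δp * q * J := by
    have := mul_le_mul_of_nonneg_right hd1 hqJ
    linarith
  obtain ⟨r, kc, kz, hr1, hr2, hkc, hkz, hend⟩ := H J hJJ1 F A hA (κ₁ := κ₁) (κ₂ := κ₂) z' G₁ G₂
    c Y Ap Ep (p₁ := p₁) (p₂ := p₂) (N₁ := N₁) (N₂ := N₂)
    (fun v => (MvPolynomial.totalDegree_sub _ _).trans (max_le
      ((totalDegree_X _).le.trans (by omega)) ((hdg1 v).trans (by omega))))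
    (fun v => (MvPolynomial.totalDegree_sub _ _).trans (max_le
      ((totalDegree_X _).le.trans (by omega)) ((hdg2 v).trans (by omega))))
    (by linarith)
    (fun ω ω' _ _ e => by
      rw [hY] at e
      simp only [Prod.mk.injEq] at e
      have e1 := e.2.1
      rw [hzz] at e1
      refine ⟨?_, (Prod.ext_iff.mp (Prod.ext_iff.mp (Prod.ext_iff.mp e1).1).2).1⟩
      rw [hφT, hφT, e.2.2])
    (by
      rw [← hq', ← hW]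
      refine le_trans (le_of_eq ?_) (hYc.trans hdd)
      refine CH_congr h0 ?_ ?_ (fun _ _ _ _ e => e) (fun _ _ _ _ e => e)
      · intro ω ω' _ _ e
        simp only [Prod.mk.injEq] at e ⊢
        exact e.1.2
      · intro ω ω' _ _ e
        have e1 := (Prod.ext_iff.mp e).2
        rw [hY, hzz] at e1
        simp only [Prod.mk.injEq] at e e1 ⊢
        exact ⟨e1.2.1.1.1, e.1⟩)
    hN1 hN2
    (fun j hj => by
      rw [← hq']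
      refine le_trans (CH_mono_cond h0 fun ω ω' _ _ hh => ?_) ((hC1 ⟨j, by omega⟩).trans hdd)
      rw [hY, hzz] at hh
      simp only [Prod.mk.injEq] at hh ⊢
      exact ⟨hh.1, congrFun hh.2.1.2.2.1 _, hh.2.2⟩)
    (fun j hj => by
      rw [← hq']
      refine le_trans (CH_mono_cond h0 fun ω ω' _ _ hh => ?_) ((hC2 ⟨j, by omega⟩).trans hdd)
      rw [hY, hzz] at hh
      simp only [Prod.mk.injEq] at hh ⊢
      exact ⟨hh.1, congrFun hh.2.1.2.2.2 _, hh.2.2⟩)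
    (by
      rw [hY]
      linarith)
    (fun j h1 h2 => by
      obtain ⟨a1, a2⟩ := hHA V Cc z z' G₁ G₂ c hcΨ' j h1 h2
      exact ⟨a1.trans hdd, a2.trans hdd⟩)
    (fun E hE hm => by
      rw [hY]
      refine hAA E hE ?_ V Cc z z' G₁ G₂ c (hΨ _ _ _ _ _ _ _ _ _ _ _ hE hcΨ) u₀ (Qu.sub hE hu₀)
        _ zz (hclo.sub hE)
      rw [one_div, ← div_eq_inv_mul, le_div_iff₀ hc₀]
      linarith)
    (hRA V Cc z z' G₂ G₁ c hcΨ')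
    hac hca
    (by linarith)
  rw [← hq'] at hkc hkz hend
  -- the event
  obtain ⟨χ, hχ⟩ := hPtl
  obtain ⟨Xf, hXf⟩ : ∃ Xf : F.Ω → 𝒜 × (ℤ × ℤ), Xf = fun ω =>
    (Ap ω, (oj F κ₁ z' G₁ ⌊w * J⌋₊ (p₁ + α * q) 0 ω, oj F κ₂ z' G₂ ⌊w * J⌋₊ (p₂ + α * q) 0 ω)) :=
    ⟨_, rfl⟩
  have hχ' : ∀ ω, A ω → ∃ l, Xf ω = χ (ptr F J ω) l := by
    rw [hXf]
    exact hχ
  obtain ⟨ω₀, hω₀⟩ : ∃ ω, A ω := by
    by_contra hcon
    push Not at hcon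
    rw [Pe_eq] at hA
    rw [Finset.sum_eq_zero (fun ω _ => by rw [if_neg (hcon ω)])] at hA
    exact lt_irrefl _ hA
  obtain ⟨l₀, -⟩ := hχ' ω₀ hω₀
  obtain ⟨ℓ, hℓ⟩ : ∃ ℓ : F.Ω → Fin B, ∀ ω, A ω → Xf ω = χ (ptr F J ω) (ℓ ω) := by
    refine ⟨fun ω => if hω : A ω then (hχ' ω hω).choose else l₀, fun ω hω => ?_⟩
    dsimp only
    rw [dif_pos hω]
    exact (hχ' ω hω).choose_spec
  have hS0 : 1 / 2 ≤ Pb q' (fun ω => 0 < q' ω ∧ kc (slam F W ω) = kz (Xf ω)) := by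
    have h1 : Pb q' (fun ω => kc (slam F W ω) ≠ kz (Xf ω)) ≤ ε := by
      rw [hXf, hW]
      exact hkz
    have h2 : (1 : ℝ) ≤ Pb q' (fun ω => 0 < q' ω ∧ kc (slam F W ω) = kz (Xf ω)) +
        Pb q' (fun ω => kc (slam F W ω) ≠ kz (Xf ω)) := by
      rw [← hq'l.sum_one]
      unfold Pb
      rw [← Finset.sum_add_distrib]
      refine Finset.sum_le_sum fun ω _ => ?_
      by_cases hp : 0 < q' ω
      · by_cases hk : kc (slam F W ω) = kz (Xf ω)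
        · rw [if_pos ⟨hp, hk⟩, if_neg (fun h => h hk)]
          linarith
        · rw [if_neg (fun h => hk h.2), if_pos hk]
          linarith
      · have h3 : q' ω = 0 := le_antisymm (not_lt.mp hp) (h0 ω)
        rw [h3]
        split_ifs <;> linarith
    linarith
  obtain ⟨l, hl⟩ := pig_part ℓ _ hS0
  obtain ⟨S₁, hS₁⟩ : ∃ S₁ : F.Ω → Prop, S₁ = fun ω =>
    (0 < q' ω ∧ kc (slam F W ω) = kz (Xf ω)) ∧ ℓ ω = l := ⟨_, rfl⟩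
  rw [← hS₁, ← hc₁] at hl
  have hfin := hend S₁ hl (fun ω hω => by
    rw [hS₁] at hω
    have h1 := hω.1.2
    rw [hXf, hW] at h1
    exact h1)
  have hSA : Sub (fun ω => A ω ∧ S₁ ω) A := fun ω h => h.1
  have hPS : c₁ * Pe F.p A ≤ Pe F.p (fun ω => A ω ∧ S₁ ω) := by
    have h1 : Pb q' S₁ = Pe q' S₁ := Pb_Pe q' S₁
    rw [h1, hq'] at hl
    exact part_pos hA hl
  have hcc' : Pool.Agent.H49.Ent.cond q' S₁ True =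
      Pool.Agent.H49.Ent.cond F.p (fun ω => A ω ∧ S₁ ω) True := by
    rw [hq']
    exact cond_and S₁ hA.ne'
  have hPpos : 0 < Pe F.p (fun ω => A ω ∧ S₁ ω) := lt_of_lt_of_le (mul_pos hc₁0 hA) hPS
  have hl1 : IsLaw (Pool.Agent.H49.Ent.cond F.p (fun ω => A ω ∧ S₁ ω) True) :=
    isLaw_cond F.isLaw hPpos
  obtain ⟨Q, hQ⟩ : ∃ Q : ℕ, Q = ⌈α * q * J⌉₊ := ⟨_, rfl⟩
  rw [← hQ] at hfin hr2 hkc
  have hx0 : 0 ≤ α * q * J := by positivity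
  have hxQ : α * q * J ≤ Q := by rw [hQ]; exact Nat.le_ceil _
  have hQx : (Q : ℝ) ≤ α * q * J + 1 := by rw [hQ]; exact (Nat.ceil_lt_add_one hx0).le
  obtain ⟨b, hb⟩ : ∃ b : ℝ, b = 1 / c₁ * (δ₁ * q * J + Real.log 2) := ⟨_, rfl⟩
  have hpos' : ∀ ω, S₁ ω → A ω → 0 < q' ω := fun ω h _ => by
    rw [hS₁] at h
    exact h.1.1
  have hleaf := hFA (fun ω => A ω ∧ S₁ ω) hSA (by
      rw [one_div, ← div_eq_inv_mul, le_div_iff₀ hc₁0]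
      linarith) V Cc z z' G₁ G₂ c (hΨ _ _ _ _ _ _ _ _ _ _ _ hSA hcΨ) Q r kc
    (fun x => kz (χ x l)) (fun ω hω => by
      obtain ⟨h1, h2⟩ := hω
      rw [hS₁] at h2
      rw [← hW, ← h2.2, ← hℓ ω h1, h2.1.2]) hxQ hQx hr1 hr2 (fun ω hω => hkc ω (hpos' ω hω.2 hω.1))
    _ (fun ω => ((oj F κ₁ z' G₁ ⌊w * J⌋₊ (p₁ + α * q) 0 ω / ((2 ^ Q : ℕ) : ℤ),
            oj F κ₂ z' G₂ ⌊w * J⌋₊ (p₂ + α * q) 0 ω / ((2 ^ Q : ℕ) : ℤ)),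
              (kc (slam F ⌊w * J⌋₊ ω), Ap ω))) b (by
      have a1 := CH_dens hq'l (hcc' ▸ hl1) (R := 1 / c₁) (by positivity)
        (cond_dens hq'l hc₁0 (by rw [← Pb_Pe]; exact hl)) Ap
        (fun ω => (z' (slam F ⌊w * J⌋₊ ω), (ceI I₀ (fun _ => J) (F.x ω), F.W ω)))
      rw [hcc', hq'] at a1
      have a2 : 1 / c₁ * (CH (Pool.Agent.H49.Ent.cond F.p A True) Ap
        (fun ω => (z' (slam F ⌊w * J⌋₊ ω), (ceI I₀ (fun _ => J) (F.x ω), F.W ω))) +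
          Real.log 2) ≤ b := by
        rw [hb]
        exact mul_le_mul_of_nonneg_left (by linarith) (by positivity)
      refine le_trans ?_ (a1.trans a2)
      refine (CH_mono_left hl1.nonneg (X' := Ap) fun ω ω' _ _ e => ?_).trans
        (CH_mono_cond hl1.nonneg fun ω ω' _ _ e => ?_)
      · obtain ⟨e1, e2⟩ := Prod.ext_iff.mp e
        dsimp only at e1 e2
        simp only [Prod.mk.injEq] at e2 ⊢
        exact ⟨e2.1, e2.2.1, e1⟩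
      · simp only [Prod.mk.injEq] at e ⊢
        exact ⟨e.2.2.1, e.2.2.2.1, e.2.2.2.2⟩)
  rw [hcc'] at hfin
  have h1 := hleaf.trans hfin
  -- the numbers
  have hJ2' : 4 * Real.log 2 / c₁ + 4 * Real.log 2 + 4 ≤ ηl * Real.log 2 * q * J := by
    have h2 := hJ₂.trans hJJ2
    rw [div_le_iff₀ (by positivity)] at h2
    linarith
  have h2 : (1 - h / α) * Q * Real.log 2 ≤ (1 - h / α) * (α * q * J + 1) * Real.log 2 := by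
    refine mul_le_mul_of_nonneg_right (mul_le_mul_of_nonneg_left hQx ?_) hl2.le
    rw [sub_nonneg, div_le_one hα]
    exact hhα
  have h3 : (1 - h / α) * (α * q * J + 1) * Real.log 2 = (α - h) * q * J * Real.log 2 +
      (1 - h / α) * Real.log 2 := by
    field_simp
  have h4 : (1 - h / α) * Real.log 2 ≤ Real.log 2 := by
    have : 0 ≤ h / α := by positivity
    nlinarith
  have h5 : ε * Q ≤ ηl * Real.log 2 * q * J / 4 + 1 := by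
    have a1 : ε * Q ≤ ε * (α * q * J + 1) := mul_le_mul_of_nonneg_left hQx hε0.le
    have a2 : ε * (4 * α) * (q * J) ≤ ηl * Real.log 2 * (q * J) :=
      mul_le_mul_of_nonneg_right hε2 hqJ
    linarith
  have h6 : b ≤ ηl * Real.log 2 * q * J / 4 + Real.log 2 / c₁ := by
    have a1 : 1 / c₁ * (δ₁ * q * J) ≤ ηl * Real.log 2 * q * J / 4 := by
      rw [one_div, ← div_eq_inv_mul, div_le_iff₀ hc₁0]
      have := mul_le_mul_of_nonneg_right hd2 hqJ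
      linarith
    rw [hb, mul_add]
    have a2 : 1 / c₁ * Real.log 2 = Real.log 2 / c₁ := by ring
    linarith
  have h7 : 0 ≤ Real.log 2 / c₁ := by positivity
  have h8 : 4 * Real.log 2 / c₁ = 4 * (Real.log 2 / c₁) := by ring
  have h9 : (α - h + ηl) * q * Real.log 2 * J = (α - h) * q * J * Real.log 2 +
      ηl * Real.log 2 * q * J := by ring
  have h10 : 0 < ηl * Real.log 2 * q * J := by positivity
  linarith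

/-- **The hop of order `i`**: a pair of labels, the jets of the first one known, the jet of order `i`
of the second one natural and alive, is impossible if the row of the second label given the first
one is not full. -/
theorem hop_rbm (K : ℕ) {i : ℕ} (hi : 1 ≤ i ∧ i ≤ K + 2) {α : ℝ} (hα : 0 < α) {h : ℝ}
    (hh : 0 < h) (hhα : h ≤ α) :
    ∃ ε' : ℝ, 0 < ε' ∧ ∃ δ : ℝ, 0 < δ ∧ ∀ al : ℝ, 0 < al →
    ∃ δ₁ : ℝ, 0 < δ₁ ∧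
    ∀ {m : ℕ} {S : PCl m} {C₀ : ℝ} (_ : TmC S C₀) (_ : S.Ne) {κ₁ κ₂ : Fin m} {w a P₁ p₂ q : ℝ}
    (_ : 0 ≤ w) (_ : w ≤ a) (_ : a ≤ 1) (_ : 0 < q) (_ : w + α * q ≤ 1)
    {U₀ : Type} {Qu : Qt m U₀} {σ γ : ∀ J : ℕ, Fam m J → Type}
    {f : ∀ (J : ℕ) (F : Fam m J), F.Ω → σ J F} {y : ∀ (J : ℕ) (F : Fam m J), F.Ω → γ J F}
    (_ : ∀ (J : ℕ) (F : Fam m J), ∃ φ : σ J F → PtT F, ∀ ω, ptr F J ω = φ (f J F ω))
    (_ : ∀ (J : ℕ) (F : Fam m J), ∃ φ : γ J F → ℕ, ∀ ω, F.T ω = φ (y J F ω))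
    {e : ℝ} (Ψ : Fm2 m)
    (_ : ∀ (J : ℕ) (F : Fam m J) (A : F.Ω → Prop) (V C : Type) (z : PtT F → V) (z' : LnT F → V)
      (G₁ G₂ : V → MvPolynomial (Option (Fin m)) ℝ) (c : LnT F → C), Ψ J F A V C z z' G₁ G₂ c →
      (∀ v, (G₁ v).totalDegree ≤ K + 1) ∧ (∀ v, (G₂ v).totalDegree ≤ K + 1) ∧
      ∀ ω, A ω → z (ptr F J ω) = z' (slam F ⌊w * J⌋₊ ω))
    (_ : ∀ (J : ℕ) (F : Fam m J) (A B : F.Ω → Prop) (V C : Type) (z : PtT F → V)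
      (z' : LnT F → V) (G₁ G₂ : V → MvPolynomial (Option (Fin m)) ℝ) (c : LnT F → C), Sub B A →
      Ψ J F A V C z z' G₁ G₂ c → Ψ J F B V C z z' G₁ G₂ c) {Ψ' : Fm2 m}
    (_ : ∀ (J : ℕ) (F : Fam m J) (A : F.Ω → Prop) (V C : Type) (z : PtT F → V)
      (z' : LnT F → V) (G₁ G₂ : V → MvPolynomial (Option (Fin m)) ℝ) (c : LnT F → C),
      Ψ' J F A V C z z' G₁ G₂ c → Ψ J F A V C z z' G₁ G₂ c)
    {K₀ : ℕ} (_ : Bas S (fun J F A => (∃ (V C : Type) (z : PtT F → V) (z' : LnT F → V)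
      (G₁ G₂ : V → MvPolynomial (Option (Fin m)) ℝ) (c : LnT F → C),
      Ψ' J F A V C z z' G₁ G₂ c) ∧ ∃ u₀ : F.Ω → U₀, Qu.P K₀ e J F A u₀))
    {N₁ N₂ : ℕ → ℝ},
    (∀ j ≤ K + 2, P₁ - j * w ≤ N₁ j) → NwE (K + 2) {i} w p₂ α q N₂ →
    Ip1 S f a y Qu Ψ' κ₂ w p₂ (α * q) i e (δ₁ * q) →
    Fw2 S f a y Qu Ψ (τ := fun _ _ _ C => C) (fun J F _ _ _ _ _ c ω => c (vg w J F ω)) e
      (δ₁ * q) →
    Row1 S Ψ' κ₁ κ₂ w P₁ p₂ (α * q) ((α - h) * q * Real.log 2 + δ * q) →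
    (∀ j ≤ K + 2, Fw2 S f a y Qu Ψ (τ := fun _ _ _ _ => ℤ)
      (fun J F _ _ z' G₁ _ _ ω => ⌊(2 : ℝ) ^ (N₁ j * J) * ojet F κ₁ j
        (G₁ (z' (slam F ⌊w * J⌋₊ ω))) ω⌋) e (δ₁ * q)) →
    (∀ j ≤ K + 2, Fw2 S f a y Qu Ψ (τ := fun _ _ _ _ => ℤ)
      (fun J F _ _ z' _ G₂ _ ω => ⌊(2 : ℝ) ^ (N₂ j * J) * ojet F κ₂ j
        (G₂ (z' (slam F ⌊w * J⌋₊ ω))) ω⌋) e (δ₁ * q)) →
    Hi1 S Ψ' κ₂ w p₂ (α * q) i (K + 2) (δ₁ * q) →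
    Al2 S f a y Qu Ψ.swap κ₂ w (p₂ + ε' * (α * q) - i * w) i e (al * q) → False := by
  classical
  obtain ⟨ε', hε', δ, hδ, c₀, hc₀, H⟩ := hop_ev (K + 2) hi hα hh hhα
  refine ⟨ε', hε', δ, hδ, ?_⟩
  intro al hal
  obtain ⟨δ₁, hδ₁0, H⟩ := H al hal
  refine ⟨δ₁, hδ₁0, ?_⟩
  intro m S C₀ htm hSne κ₁ κ₂ w a P₁ p₂ q hw0 hwa ha hq hwq U₀ Qu σ γ f y hf hy e Ψ hΨl hΨ Ψ' hle K₀
    hex N₁ N₂ hN1 hN2 hIp hc hr hj1 hj2 hHi hAl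
  obtain ⟨J₁, H⟩ := H (w := w) (q := q) hw0 hq hwq
  have HA := Pool.GRW.bas_part (hAl K₀) (c := 1 / c₀) (by positivity)
  obtain ⟨τ, hτ, J₃, hAll⟩ := ((HA.and hr).and ((Bas.all (K + 3) fun j hj =>
    hj1 j (by omega) K₀).and (Bas.all (K + 3) fun j hj => hj2 j (by omega) K₀))).and
    ((((hc K₀).and (hIp K₀)).and (hHi.and hex)).and
      (Pool.GRW.tmc_bas htm (ψ := δ₁ * q) (by positivity)))
  obtain ⟨J, hJ, F, A, hSt⟩ := hSne τ hτ (max J₁ J₃)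
  obtain ⟨⟨⟨hAA, hRA⟩, hJ1, hJ2⟩, ⟨⟨hcA, hIA⟩, hHA, hexA⟩, hA, hT⟩ :=
    hAll J ((le_max_right _ _).trans hJ) F A hSt
  obtain ⟨⟨V, Cc, z, z', G₁, G₂, c, hcΨ'⟩, u₀, hu₀⟩ := hexA
  have hcΨ := hle J F A V Cc z z' G₁ G₂ c hcΨ'
  obtain ⟨hdg1, hdg2, hcls⟩ := hΨl J F A V Cc z z' G₁ G₂ c hcΨ
  obtain ⟨Vc, zc, hzc, hcc⟩ := hcA V Cc z z' G₁ G₂ c hcΨ u₀ hu₀
  have hJJ1 : J₁ ≤ J := (le_max_left _ _).trans hJ
  have hJ0 : (0 : ℝ) ≤ J := Nat.cast_nonneg J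
  have hw1 : w ≤ 1 := hwa.trans ha
  obtain ⟨W, hW⟩ : ∃ W : ℕ, W = ⌊w * J⌋₊ := ⟨_, rfl⟩
  have hWJ : W ≤ J := by
    rw [hW]
    refine Nat.floor_le_of_le ?_
    nlinarith
  obtain ⟨q', hq'⟩ : ∃ q' : F.Ω → ℝ, q' = Pool.Agent.H49.Ent.cond F.p A True := ⟨_, rfl⟩
  have hq'l : IsLaw q' := by
    rw [hq']
    exact isLaw_cond F.isLaw hA
  have h0 := hq'l.nonneg
  have hvg : ∀ ω, vg w J F ω = slam F W ω := fun ω => by rw [hW]; rfl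
  have hz1 : ∀ j : Fin (K + 3), ∃ (V₂ : Type) (z₂ : F.Ω → V₂), Cl2 (f J F) (vg a J F) A z₂ ∧
      CH q' (fun ω => ⌊(2 : ℝ) ^ (N₁ j * J) * ojet F κ₁ j (G₁ (z' (slam F ⌊w * J⌋₊ ω))) ω⌋)
        (fun ω => (u₀ ω, (z₂ ω, y J F ω))) ≤ δ₁ * q * J := by
    intro j
    rw [hq']
    exact hJ1 j j.2 V Cc z z' G₁ G₂ c hcΨ u₀ hu₀
  have hz2 : ∀ j : Fin (K + 3), ∃ (V₂ : Type) (z₂ : F.Ω → V₂), Cl2 (f J F) (vg a J F) A z₂ ∧
      CH q' (fun ω => ⌊(2 : ℝ) ^ (N₂ j * J) * ojet F κ₂ j (G₂ (z' (slam F ⌊w * J⌋₊ ω))) ω⌋)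
        (fun ω => (u₀ ω, (z₂ ω, y J F ω))) ≤ δ₁ * q * J := by
    intro j
    rw [hq']
    exact hJ2 j j.2 V Cc z z' G₁ G₂ c hcΨ u₀ hu₀
  choose V1 z1 hz1 hC1 using hz1
  choose V2 z2 hz2 hC2 using hz2
  -- the record of the ball
  obtain ⟨zz, hzz⟩ : ∃ zz : F.Ω → (V × (F.ζ × ℕ)) × (Vc × ((∀ j, V1 j) × (∀ j, V2 j))), zz =
    fun ω => ((z' (slam F W ω), (slam F W ω).2), (zc ω, (fun j => z1 j ω, fun j => z2 j ω))) :=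
    ⟨_, rfl⟩
  obtain ⟨Y, hY⟩ : ∃ Y : F.Ω → U₀ × (((V × (F.ζ × ℕ)) × (Vc × ((∀ j, V1 j) × (∀ j, V2 j)))) ×
      γ J F), Y = fun ω => (u₀ ω, (zz ω, y J F ω)) := ⟨_, rfl⟩
  have hYc : CH q' (fun ω => c (slam F W ω)) Y ≤ δ₁ * q * J := by
    rw [← hq'] at hcc
    simp only [hvg] at hcc
    refine le_trans (CH_mono_cond h0 fun ω ω' _ _ hh => ?_) hcc
    rw [hY, hzz] at hh
    simp only [Prod.mk.injEq] at hh ⊢
    exact ⟨hh.1, hh.2.1.2.1, hh.2.2⟩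
  obtain ⟨φf, hφf⟩ := hf J F
  obtain ⟨φg, hφg⟩ := vg_mono hwa ha J F
  have hclo : Cl2 (f J F) (vg a J F) A zz := by
    rw [hzz]
    refine Cl2.join ⟨?_, ?_⟩ (Cl2.join hzc (Cl2.join (Cl2.pi hz1) (Cl2.pi hz2)))
    · refine ⟨fun x => (z (φf x), ((φf x).2.2, (φf x).2.1 / 2 ^ (J - W))), fun ω hω => ?_⟩
      dsimp only
      have h1 := hcls ω hω
      rw [← hW] at h1
      rw [← hφf ω, h1]
      rfl
    · refine ⟨fun x => (z' (φg x), (φg x).2), fun ω _ => ?_⟩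
      dsimp only
      rw [← hφg ω, hvg ω]
  have hIY := hIA V Cc z z' G₁ G₂ c hcΨ' u₀ hu₀ _ _ hclo
  obtain ⟨φT, hφT⟩ := hy J F
  refine H J hJJ1 F A hA (κ₁ := κ₁) (κ₂ := κ₂) z' G₁ G₂ c Y (P₁ := P₁) (p₂ := p₂) (N₁ := N₁)
    (N₂ := N₂)
    (fun v => (MvPolynomial.totalDegree_sub _ _).trans (max_le
      ((totalDegree_X _).le.trans (by omega)) ((hdg1 v).trans (by omega))))
    (fun v => (MvPolynomial.totalDegree_sub _ _).trans (max_le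
      ((totalDegree_X _).le.trans (by omega)) ((hdg2 v).trans (by omega))))
    (by linarith)
    (fun ω ω' _ _ e => by
      rw [hY] at e
      simp only [Prod.mk.injEq] at e
      have e1 := e.2.1
      rw [hzz] at e1
      refine ⟨?_, (Prod.ext_iff.mp (Prod.ext_iff.mp (Prod.ext_iff.mp e1).1).2).1⟩
      rw [hφT, hφT, e.2.2])
    (by
      rw [← hq', ← hW]
      refine le_trans (le_of_eq ?_) hYc
      refine CH_congr h0 ?_ ?_ (fun _ _ _ _ e => e) (fun _ _ _ _ e => e)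
      · intro ω ω' _ _ e
        simp only [Prod.mk.injEq] at e ⊢
        exact e.1.2
      · intro ω ω' _ _ e
        have e1 := (Prod.ext_iff.mp e).2
        rw [hY, hzz] at e1
        simp only [Prod.mk.injEq] at e e1 ⊢
        exact ⟨e1.2.1.1.1, e.1⟩)
    hN1 hN2
    (fun j hj => by
      rw [← hq']
      refine le_trans (CH_mono_cond h0 fun ω ω' _ _ hh => ?_) (hC1 ⟨j, by omega⟩)
      rw [hY, hzz] at hh
      simp only [Prod.mk.injEq] at hh ⊢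
      exact ⟨hh.1, congrFun hh.2.1.2.2.1 _, hh.2.2⟩)
    (fun j hj => by
      rw [← hq']
      refine le_trans (CH_mono_cond h0 fun ω ω' _ _ hh => ?_) (hC2 ⟨j, by omega⟩)
      rw [hY, hzz] at hh
      simp only [Prod.mk.injEq] at hh ⊢
      exact ⟨hh.1, congrFun hh.2.1.2.2.2 _, hh.2.2⟩)
    (by
      rw [hY]
      exact hIY)
    (fun j h1 h2 => hHA V Cc z z' G₁ G₂ c hcΨ' j h1 h2)
    (fun E hE hm => by
      rw [hY]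
      refine hAA E hE ?_ V Cc z z' G₂ G₁ c (hΨ _ _ _ _ _ _ _ _ _ _ _ hE hcΨ) u₀ (Qu.sub hE hu₀)
        _ zz (hclo.sub hE)
      rw [one_div, ← div_eq_inv_mul, le_div_iff₀ hc₀]
      linarith)
    (hRA V Cc z z' G₁ G₂ c hcΨ')

end Pool.RWB12
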